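import Pool.Agent.Lib.MP_b7b898_nt.SK.Car

/-! SK: the finite automaton reading exponents, and pumping. -/

namespace SkP
open MvPolynomial Finset

variable {p : ℕ} [Fact p.Prime] {σ ι κ : Type} [Fintype σ] [Fintype ι] [Fintype κ]

/-- weight of the term `i` on a block of `j` digits with value `x`. -/
noncomputable def wt (h : ι → MvPolynomial σ (ZMod p)) (b : ι → κ → MvPolynomial σ (ZMod p))
    (j : ℕ) (x : κ → ℕ) (i : ι) : MvPolynomial σ (ZMod p) :=
  h i ^ (p ^ j - 1) * ∏ k, b i k ^ x k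

theorem wt_add (h : ι → MvPolynomial σ (ZMod p)) (b : ι → κ → MvPolynomial σ (ZMod p))
    (j j' : ℕ) (x x' : κ → ℕ) (i : ι) :
    wt h b (j + j') (fun k => x k + p ^ j * x' k) i = wt h b j x i * wt h b j' x' i ^ p ^ j := by
  have hp := (Fact.out : p.Prime).pos
  have h1 : p ^ (j + j') - 1 = (p ^ j - 1) + (p ^ j' - 1) * p ^ j := by
    have h2 : 0 < p ^ j := pow_pos hp j
    have h3 : 0 < p ^ j' := pow_pos hp j'
    rw [pow_add]
    obtain ⟨a, ha⟩ : ∃ a, p ^ j' = a + 1 := ⟨p ^ j' - 1, by omega⟩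
    rw [ha, Nat.add_sub_cancel, mul_add, mul_comm a]
    omega
  unfold wt
  rw [h1, pow_add (h i), pow_mul, mul_pow, ← Finset.prod_pow, mul_mul_mul_comm,
    ← Finset.prod_mul_distrib]
  congr 1
  refine Finset.prod_congr rfl fun k _ => ?_
  rw [pow_add, mul_comm (p ^ j), pow_mul]

theorem wt_deg {h : ι → MvPolynomial σ (ZMod p)} {b : ι → κ → MvPolynomial σ (ZMod p)} {G : ℕ}
    (hh : ∀ i, (h i).totalDegree ≤ G) (hb : ∀ i k, (b i k).totalDegree ≤ G) {j : ℕ} {x : κ → ℕ}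
    (hx : ∀ k, x k < p ^ j) (i : ι) :
    (wt h b j x i).totalDegree ≤ (p ^ j - 1) * (G + Fintype.card κ * G) := by
  refine (totalDegree_mul _ _).trans ?_
  rw [mul_add]
  refine add_le_add ((totalDegree_pow _ _).trans (Nat.mul_le_mul_left _ (hh i))) ?_
  refine (totalDegree_finsetProd _ _).trans ?_
  have := Finset.sum_le_card_nsmul univ (fun k => (b i k ^ x k).totalDegree) ((p ^ j - 1) * G)
    fun k _ => (totalDegree_pow _ _).trans (Nat.mul_le_mul (by have := hx k; omega) (hb i k))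
  rw [card_univ, smul_eq_mul] at this
  exact this.trans (le_of_eq (by ring))

variable {S : Type}

/-- transition on a block of `j` digits with value `x`. -/
def Step (h : ι → MvPolynomial σ (ZMod p)) (b : ι → κ → MvPolynomial σ (ZMod p)) (j : ℕ)
    (x : κ → ℕ) (Z : Set (ι → S → MvPolynomial σ (ZMod p))) :
    Set (ι → S → MvPolynomial σ (ZMod p)) :=
  {Ψ | ∃ Φ ∈ Z, ∃ e : σ → ℕ, (∀ a, e a < p ^ j) ∧
    Ψ = fun i s => car p (p ^ j) (mono p e * wt h b j x i * Φ i s)}

theorem step_add (h : ι → MvPolynomial σ (ZMod p)) (b : ι → κ → MvPolynomial σ (ZMod p))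
    (j j' : ℕ) (x x' : κ → ℕ) (Z : Set (ι → S → MvPolynomial σ (ZMod p))) :
    Step h b (j + j') (fun k => x k + p ^ j * x' k) Z = Step h b j' x' (Step h b j x Z) := by
  have hp := (Fact.out : p.Prime).pos
  have key : ∀ (e e' : σ → ℕ) (f : MvPolynomial σ (ZMod p)) (i : ι),
      car p (p ^ (j + j')) (mono p (fun a => e a + p ^ j * e' a) *
        wt h b (j + j') (fun k => x k + p ^ j * x' k) i * f) =
      car p (p ^ j') (mono p e' * wt h b j' x' i * car p (p ^ j) (mono p e * wt h b j x i * f)) := by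
    intro e e' f i
    rw [← car_pow_mul, car_car (pow_pos hp _) (pow_pos hp _), ← pow_add, mono_add, wt_add]
    congr 1
    ring
  ext Ψ
  constructor
  · rintro ⟨Φ, hΦ, e, he, rfl⟩
    refine ⟨_, ⟨Φ, hΦ, fun a => e a % p ^ j, fun a => Nat.mod_lt _ (pow_pos hp _), rfl⟩,
      fun a => e a / p ^ j, fun a => ?_, ?_⟩
    · rw [Nat.div_lt_iff_lt_mul (pow_pos hp _), mul_comm, ← pow_add]
      exact he a
    · funext i s
      rw [← key]
      simp only [Nat.mod_add_div]
  · rintro ⟨_, ⟨Φ, hΦ, e, he, rfl⟩, e', he', rfl⟩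
    refine ⟨Φ, hΦ, fun a => e a + p ^ j * e' a, fun a => ?_, ?_⟩
    · have h1 : p ^ j * (e' a + 1) ≤ p ^ j * p ^ j' := Nat.mul_le_mul_left _ (he' a)
      have h2 := he a
      show e a + p ^ j * e' a < _
      rw [pow_add]
      rw [mul_add] at h1
      omega
    · funext i s
      rw [key]

/-- bounded states. -/
def Bd (D : ℕ) : Set (Set (ι → S → MvPolynomial σ (ZMod p))) :=
  {Z | ∀ Φ ∈ Z, ∀ i s, (Φ i s).totalDegree ≤ D}

theorem deg_finite (D : ℕ) : {f : MvPolynomial σ (ZMod p) | f.totalDegree ≤ D}.Finite := by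
  have : Finite (restrictTotalDegree σ (ZMod p) D) := Module.finite_of_finite (ZMod p)
  refine Set.Finite.subset (Set.toFinite (restrictTotalDegree σ (ZMod p) D : Set _)) ?_
  intro f hf
  exact (mem_restrictTotalDegree _ _ _).2 hf

theorem bd_finite [Finite S] (D : ℕ) :
    (Bd D : Set (Set (ι → S → MvPolynomial σ (ZMod p)))).Finite := by
  have h := Set.Finite.pi' fun _ : ι => Set.Finite.pi' fun _ : S => deg_finite (p := p) (σ := σ) D
  exact h.finite_subsets.subset fun Z hZ Φ hΦ => hZ Φ hΦ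

theorem step_bd {h : ι → MvPolynomial σ (ZMod p)} {b : ι → κ → MvPolynomial σ (ZMod p)} {G D : ℕ}
    (hh : ∀ i, (h i).totalDegree ≤ G) (hb : ∀ i k, (b i k).totalDegree ≤ G)
    (hD : Fintype.card σ + (G + Fintype.card κ * G) ≤ D) {j : ℕ} {x : κ → ℕ}
    (hx : ∀ k, x k < p ^ j) {Z : Set (ι → S → MvPolynomial σ (ZMod p))} (hZ : Z ∈ Bd D) :
    Step h b j x Z ∈ Bd D := by
  have hp : 0 < p ^ j := pow_pos (Fact.out : p.Prime).pos j
  rintro _ ⟨Φ, hΦ, e, he, rfl⟩ i s
  refine car_deg hp ((totalDegree_mul _ _).trans ?_)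
  have h1 := totalDegree_mul (mono p e) (wt h b j x i)
  have h2 := mono_deg (p := p) (e := e) (M := p ^ j - 1) fun a => by have := he a; omega
  have h3 := wt_deg hh hb hx i
  have h4 := hZ Φ hΦ i s
  have h5 := Nat.mul_le_mul_left (p ^ j - 1) hD
  obtain ⟨a, ha⟩ : ∃ a, p ^ j = a + 1 := ⟨p ^ j - 1, by omega⟩
  rw [ha, Nat.add_sub_cancel] at h2 h3 h5
  rw [ha]
  nlinarith

/-- vanishing of the sums on all points over `K`. -/
def Van (h : ι → MvPolynomial σ (ZMod p)) (b : ι → κ → MvPolynomial σ (ZMod p))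
    (W : Set (ι → MvPolynomial σ (ZMod p))) (K : Type) [Field K] [Algebra (ZMod p) K]
    (j : ℕ) (x : κ → ℕ) : Prop :=
  ∀ c ∈ W, ∀ y : σ → K, aeval y (∑ i, wt h b j x i * c i) = 0

/-- initial state. -/
def Ini (D : ℕ) (W : Set (ι → MvPolynomial σ (ZMod p))) :
    Set (ι → (σ → Fin (D + 1)) → MvPolynomial σ (ZMod p)) :=
  {Φ | ∃ c ∈ W, Φ = fun i s => c i * mono p fun a => (s a : ℕ)}

/-- accepting states. -/
def Acc [DecidableEq σ] (D : ℕ) (Z : Set (ι → (σ → Fin (D + 1)) → MvPolynomial σ (ZMod p))) :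
    Prop :=
  ∀ Φ ∈ Z, ∑ s : σ → Fin (D + 1), ∑ i, coeff (ex fun a => (s a : ℕ)) (Φ i s) = 0

theorem acc_iff [DecidableEq σ] {h : ι → MvPolynomial σ (ZMod p)}
    {b : ι → κ → MvPolynomial σ (ZMod p)} {W : Set (ι → MvPolynomial σ (ZMod p))} {G D : ℕ}
    (hh : ∀ i, (h i).totalDegree ≤ G) (hb : ∀ i k, (b i k).totalDegree ≤ G)
    (hW : ∀ c ∈ W, ∀ i, (c i).totalDegree ≤ G)
    (hD : Fintype.card σ + (G + Fintype.card κ * G) + G ≤ D) {j : ℕ} {x : κ → ℕ}
    (hx : ∀ k, x k < p ^ j) (K : Type) [Field K] [Fintype K] [Algebra (ZMod p) K]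
    (hK : Fintype.card K = p ^ j) : Acc D (Step h b j x (Ini D W)) ↔ Van h b W K j x := by
  have hQ : 1 < p ^ j := hK ▸ Fintype.one_lt_card
  have key : ∀ c ∈ W, ∀ e : σ → ℕ, (∀ a, e a < p ^ j) →
      (∑ s : σ → Fin (D + 1), ∑ i, coeff (ex fun a => (s a : ℕ)) (car p (p ^ j)
        (mono p e * wt h b j x i * (c i * mono p fun a => (s a : ℕ)))) = 0 ↔
      ∑ y : σ → K, aeval y (mono p e) * aeval y (∑ i, wt h b j x i * c i) = 0) := by
    intro c hc e he
    have hd : (mono p e * ∑ i, wt h b j x i * c i).totalDegree ≤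
        (Fintype.card K - 1) * (D + 1) := by
      refine (totalDegree_mul _ _).trans ?_
      have h2 := mono_deg (p := p) (e := e) (M := p ^ j - 1) fun a => by have := he a; omega
      have h3 : (∑ i, wt h b j x i * c i).totalDegree ≤
          (p ^ j - 1) * (G + Fintype.card κ * G) + G :=
        (totalDegree_finsetSum _ _).trans (Finset.sup_le fun i _ =>
          (totalDegree_mul _ _).trans (add_le_add (wt_deg hh hb hx i) (hW c hc i)))
      have h5 := Nat.mul_le_mul_left (p ^ j - 1) hD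
      obtain ⟨a, ha⟩ : ∃ a, p ^ j = a + 2 := ⟨p ^ j - 2, by omega⟩
      rw [ha, show a + 2 - 1 = a + 1 from rfl] at h2 h3 h5
      rw [hK, ha, show a + 2 - 1 = a + 1 from rfl]
      have h6 : G ≤ (a + 1) * G := Nat.le_mul_of_pos_left _ (Nat.succ_pos a)
      nlinarith
    simp only [← map_mul]
    rw [trace_formula hd, hK, mul_eq_zero, or_iff_right (pow_ne_zero _ (by simp)),
      map_eq_zero_iff _ (algebraMap (ZMod p) K).injective]
    simp only [Finset.mul_sum, Finset.sum_mul, map_sum, coeff_sum, mul_assoc]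
  constructor
  · intro hA c hc
    refine zero_of_moments (p := p) _ fun e he => ?_
    rw [hK] at he
    exact (key c hc e he).1 (hA _ ⟨_, ⟨c, hc, rfl⟩, e, he, rfl⟩)
  · rintro hV _ ⟨_, ⟨c, hc, rfl⟩, e, he, rfl⟩
    refine (key c hc e he).2 (Finset.sum_eq_zero fun y _ => ?_)
    rw [hV c hc y, mul_zero]

/-- the repunit in base `q`. -/
def rep (q : ℕ) (m : ℕ) : ℕ := ∑ a ∈ range m, q ^ a

theorem rep_succ (q m : ℕ) : rep q (m + 1) = rep q m + q ^ m := Finset.sum_range_succ _ _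

theorem rep_add (q m n : ℕ) : rep q (m + n) = rep q m + q ^ m * rep q n := by
  unfold rep
  rw [Finset.sum_range_add, Finset.mul_sum]
  simp only [pow_add]

theorem rep_lt {q v : ℕ} (hv : v < q) (m : ℕ) : rep q m * v < q ^ m := by
  induction m with
  | zero => simp [rep]
  | succ m ih =>
    rw [rep_succ, add_mul, pow_succ]
    have : q ^ m * (v + 1) ≤ q ^ m * q := Nat.mul_le_mul_left _ hv
    rw [mul_add] at this
    omega

theorem add_lt_pow {j j' x x' : ℕ} (hx : x < p ^ j) (hx' : x' < p ^ j') :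
    x + p ^ j * x' < p ^ (j + j') := by
  have h1 : p ^ j * (x' + 1) ≤ p ^ j * p ^ j' := Nat.mul_le_mul_left _ hx'
  rw [mul_add] at h1
  rw [pow_add]
  omega

theorem pigeon {T : Type*} {Y : Set T} (hY : Y.Finite) :
    ∃ B : ℕ, ∀ f : ℕ → T, (∀ j, f j ∈ Y) → ∃ j l, 0 < l ∧ j + l ≤ B ∧ f (j + l) = f j := by
  refine ⟨hY.toFinset.card, fun f hf => ?_⟩
  obtain ⟨a, ha, c, hc, hne, he⟩ := Finset.exists_ne_map_eq_of_card_lt_of_maps_to
    (s := range (hY.toFinset.card + 1)) (t := hY.toFinset) (by simp) (f := f)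
    (fun j _ => by simpa using hf j)
  rw [Finset.mem_range] at ha hc
  rcases lt_or_gt_of_ne hne with h | h
  · exact ⟨a, c - a, by omega, by omega, by rw [show a + (c - a) = c by omega, he]⟩
  · exact ⟨c, a - c, by omega, by omega, by rw [show c + (a - c) = a by omega, he]⟩

/-- pumping. -/
theorem pump (h : ι → MvPolynomial σ (ZMod p)) (b : ι → κ → MvPolynomial σ (ZMod p))
    {W : Set (ι → MvPolynomial σ (ZMod p))} (hW : W.Finite) :
    ∃ B : ℕ, ∀ N, B ≤ N → ∀ (K : Type) [Field K] [Fintype K] [Algebra (ZMod p) K],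
      Fintype.card K = p ^ N → ∀ x : κ → ℕ, (∀ k, x k < p ^ N) → Van h b W K N x →
      ∃ (j l ρ : ℕ) (u v z : κ → ℕ), 0 < l ∧ l ≤ B ∧ j + l + ρ = N ∧
        ∀ (m : ℕ) (K' : Type) [Field K'] [Fintype K'] [Algebra (ZMod p) K'],
          Fintype.card K' = p ^ (j + l * m + ρ) → Van h b W K' (j + l * m + ρ)
            fun k => u k + p ^ j * (rep (p ^ l) m * v k) + p ^ (j + l * m) * z k := by
  classical
  have hp := (Fact.out : p.Prime).pos
  obtain ⟨G, hh, hb, hc⟩ : ∃ G, (∀ i, (h i).totalDegree ≤ G) ∧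
      (∀ i k, (b i k).totalDegree ≤ G) ∧ ∀ c ∈ W, ∀ i, (c i).totalDegree ≤ G := by
    obtain ⟨G1, h1⟩ := (Set.finite_range fun i => (h i).totalDegree).bddAbove
    obtain ⟨G2, h2⟩ := (Set.finite_range fun q : ι × κ => (b q.1 q.2).totalDegree).bddAbove
    obtain ⟨G3, h3⟩ := ((hW.prod (Set.finite_univ (α := ι))).image
      fun q => (q.1 q.2).totalDegree).bddAbove
    refine ⟨G1 + G2 + G3, fun i => ?_, fun i k => ?_, fun c hc i => ?_⟩
    · have : (h i).totalDegree ≤ G1 := h1 ⟨i, rfl⟩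
      omega
    · have : (b i k).totalDegree ≤ G2 := h2 ⟨(i, k), rfl⟩
      omega
    · have : (c i).totalDegree ≤ G3 := h3 ⟨(c, i), ⟨hc, trivial⟩, rfl⟩
      omega
  obtain ⟨D, hD⟩ : ∃ D, Fintype.card σ + (G + Fintype.card κ * G) + G ≤ D := ⟨_, le_rfl⟩
  have h0 : Ini D W ∈ Bd (D + Fintype.card σ * D) := by
    rintro _ ⟨c, hc', rfl⟩ i s
    refine (totalDegree_mul _ _).trans (add_le_add ((hc c hc' i).trans (by omega)) ?_)
    exact mono_deg fun a => Nat.le_of_lt_succ (s a).2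
  obtain ⟨B, hB⟩ := pigeon (bd_finite (p := p) (σ := σ) (ι := ι) (S := σ → Fin (D + 1))
    (D + Fintype.card σ * D))
  refine ⟨B, fun N hN K _ _ _ hK x hx hV => ?_⟩
  obtain ⟨j, l, hl, hjl, he⟩ := hB (fun j => Step h b j (fun k => x k % p ^ j) (Ini D W))
    fun j => step_bd hh hb (by omega) (fun k => Nat.mod_lt _ (pow_pos hp _)) h0
  obtain ⟨ρ, rfl⟩ : ∃ ρ, N = j + l + ρ := ⟨N - (j + l), by omega⟩
  have hz : ∀ k, x k / p ^ (j + l) < p ^ ρ := fun k => by
    rw [Nat.div_lt_iff_lt_mul (pow_pos hp _), mul_comm, ← pow_add]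
    exact hx k
  refine ⟨j, l, ρ, fun k => x k % p ^ j, fun k => x k / p ^ j % p ^ l, fun k => x k / p ^ (j + l),
    hl, by omega, rfl, fun m K' _ _ _ hK' => ?_⟩
  have h1 : ∀ m, Step h b (j + l * m) (fun k => x k % p ^ j +
      p ^ j * (rep (p ^ l) m * (x k / p ^ j % p ^ l))) (Ini D W) =
      Step h b j (fun k => x k % p ^ j) (Ini D W) := by
    intro m
    induction m with
    | zero => simp [rep]
    | succ m ih =>
      have h2 := step_add h b (j + l * m) l (fun k => x k % p ^ j +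
        p ^ j * (rep (p ^ l) m * (x k / p ^ j % p ^ l))) (fun k => x k / p ^ j % p ^ l) (Ini D W)
      rw [ih, ← step_add] at h2
      simp only [← Nat.mod_mul, ← pow_add] at h2
      rw [he] at h2
      rw [← h2, mul_add, mul_one, add_assoc]
      congr 1
      funext k
      rw [rep_succ]
      ring
  refine (acc_iff hh hb hc hD (fun k => add_lt_pow (add_lt_pow (Nat.mod_lt _ (pow_pos hp _)) ?_)
    (hz k)) K' hK').1 ?_
  · rw [pow_mul]
    exact rep_lt (Nat.mod_lt _ (pow_pos hp _)) m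
  · rw [step_add, h1, ← he, ← step_add]
    simp only [Nat.mod_add_div]
    exact (acc_iff hh hb hc hD hx K hK).2 hV

end SkP
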