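import Pool.Agent.Lib.MP_b7b898_nt.SK.Lam

/-! SK: reduction to one congruence over `F[T]`. -/

namespace SkP
open Polynomial Finset

variable {F : Type} [Field F] {ι : Type}

theorem fin_quot [Finite F] {M : F[X]} (hM : M ≠ 0) : Finite (F[X] ⧸ Ideal.span {M}) := by
  have : Module.Finite F (AdjoinRoot M) := (AdjoinRoot.powerBasis hM).finite
  exact (Module.finite_of_finite F : Finite (AdjoinRoot M))

/-- low terms of a highly divisible sum of powers of one base cancel. -/
theorem shift_up {P : F[X]} (hP : 0 < P.natDegree) (s : Finset ι) (a : ι → F[X]) {d n m : ℕ}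
    (hd : ∀ i ∈ s, (a i).natDegree ≤ d) (hn : s.card ≤ n) (y : ι → ℕ)
    (h : P ^ m ∣ ∑ i ∈ s, a i * P ^ y i) :
    ∃ y' : ι → ℕ, ∑ i ∈ s, a i * P ^ y' i = ∑ i ∈ s, a i * P ^ y i ∧
      ∀ i ∈ s, m ≤ y' i + n * (d + 1) := by
  classical
  by_cases hm : m ≤ n * (d + 1)
  · exact ⟨y, rfl, fun i _ => by omega⟩
  obtain ⟨r, hr, hr'⟩ := Finset.exists_mem_notMem_of_card_lt_card
    (s := s.image fun i => (m - y i) / (d + 1)) (t := range (n + 1))
    (by rw [card_range]; exact Nat.lt_succ_of_le (card_image_le.trans hn))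
  have hrn : r * (d + 1) ≤ n * (d + 1) := Nat.mul_le_mul_right _ (by simpa [Nat.lt_succ_iff] using hr)
  obtain ⟨θ, hθ⟩ : ∃ θ, θ + r * (d + 1) = m := ⟨m - r * (d + 1), by omega⟩
  have hgap : ∀ i ∈ s, ¬ y i + (d + 1) ≤ θ → θ ≤ y i := by
    intro i hi h1
    by_contra h2
    refine hr' (mem_image.2 ⟨i, hi, Nat.div_eq_of_lt_le (by omega) ?_⟩)
    rw [add_mul]
    omega
  have h0 : ∑ i ∈ s with y i + (d + 1) ≤ θ, a i * P ^ y i = 0 := by
    have h1 : P ^ θ ∣ ∑ i ∈ s with y i + (d + 1) ≤ θ, a i * P ^ y i := by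
      rw [← sum_filter_add_sum_filter_not s fun i => y i + (d + 1) ≤ θ] at h
      refine (dvd_add_left (dvd_sum fun i hi => ?_)).1 ((pow_dvd_pow P (by omega)).trans h)
      rw [mem_filter] at hi
      exact (pow_dvd_pow P (hgap i hi.1 hi.2)).mul_left _
    refine eq_zero_of_dvd_of_natDegree_lt h1 ?_
    rw [natDegree_pow]
    have hθ0 : 0 < θ * P.natDegree := Nat.mul_pos (by omega) hP
    refine lt_of_le_of_lt (natDegree_sum_le_of_forall_le (n := θ * P.natDegree - 1) _ _
      fun i hi => ?_) (by omega)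
    rw [mem_filter] at hi
    refine natDegree_mul_le.trans ?_
    rw [natDegree_pow]
    have h2 := Nat.mul_le_mul_right P.natDegree hi.2
    have h3 := Nat.le_mul_of_pos_right (d + 1) hP
    have h4 := hd i hi.1
    rw [add_mul] at h2
    omega
  refine ⟨fun i => if y i + (d + 1) ≤ θ then y i + m else y i, ?_, fun i hi => ?_⟩
  · rw [← sum_filter_add_sum_filter_not s fun i => y i + (d + 1) ≤ θ,
      ← sum_filter_add_sum_filter_not s (fun i => y i + (d + 1) ≤ θ) fun i => a i * P ^ y i, h0]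
    congr 1
    · rw [← zero_mul (P ^ m), ← h0, sum_mul]
      exact sum_congr rfl fun i hi => by
        simp only [if_pos (mem_filter.1 hi).2, pow_add, mul_assoc]
    · exact sum_congr rfl fun i hi => by simp only [if_neg (mem_filter.1 hi).2]
  · beta_reduce
    split_ifs with h1
    · omega
    · have := hgap i hi h1
      omega

variable [Finite F] [Fintype ι] {P : ι → F[X]}

theorem exists_period (hP : ∀ i, 0 < (P i).natDegree)
    (hc : ∀ i j, P i = P j ∨ IsCoprime (P i) (P j)) (L : ℕ) :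
    ∃ N, 0 < N ∧ ∀ i j, P j ≠ P i → Ideal.Quotient.mk (Ideal.span {P i ^ L}) (P j) ^ N = 1 := by
  have : ∀ q : ι × ι, ∃ N, 0 < N ∧ (P q.2 ≠ P q.1 →
      Ideal.Quotient.mk (Ideal.span {P q.1 ^ L}) (P q.2) ^ N = 1) := by
    rintro ⟨i, j⟩
    by_cases h : P j = P i
    · exact ⟨1, one_pos, fun h' => absurd h h'⟩
    have := fin_quot (pow_ne_zero L (ne_zero_of_natDegree_gt (hP i)))
    obtain ⟨u, v, huv⟩ := ((hc j i).resolve_left h).pow_right (n := L)
    have hu : IsUnit (Ideal.Quotient.mk (Ideal.span {P i ^ L}) (P j)) := by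
      refine IsUnit.of_mul_eq_one_right (Ideal.Quotient.mk _ u) ?_
      rw [← map_mul, ← map_one (Ideal.Quotient.mk (Ideal.span {P i ^ L})), ← huv, eq_comm,
        Ideal.Quotient.eq, add_sub_cancel_left]
      exact Ideal.mul_mem_left _ _ (Ideal.mem_span_singleton_self _)
    obtain ⟨w, hw⟩ := hu
    refine ⟨Nat.card _, Nat.card_pos (α := (F[X] ⧸ Ideal.span {P i ^ L})ˣ), fun _ => ?_⟩
    rw [← hw, ← Units.val_pow_eq_pow_val, pow_card_eq_one', Units.val_one]
  choose N h0 hN using this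
  refine ⟨∏ q, N q, prod_pos fun q _ => h0 q, fun i j h => ?_⟩
  obtain ⟨c, hc⟩ := dvd_prod_of_mem N (mem_univ (i, j))
  rw [hc, pow_mul, hN (i, j) h, one_pow]

/-- no solution of the congruence with all exponents large. -/
theorem no_large (hP : ∀ i, 0 < (P i).natDegree) (hc : ∀ i j, P i = P j ∨ IsCoprime (P i) (P j))
    (a : ι → F[X]) (c : F[X]) {s : Finset ι} (hs : s.Nonempty) {B : ℕ}
    (hB : ∀ x : ι → ℕ, c + ∑ i ∈ s, a i * P i ^ x i = 0 → ∀ i ∈ s, x i ≤ B) :
    ∃ (L : ℕ) (M : F[X]), M ≠ 0 ∧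
      ∀ x : ι → ℕ, (∀ i ∈ s, L ≤ x i) → ¬ M ∣ c + ∑ i ∈ s, a i * P i ^ x i := by
  classical
  obtain ⟨p, hp⟩ := CharP.exists F
  have : Fact p.Prime := ⟨CharP.char_is_prime F p⟩
  let _ := ZMod.algebra F p
  have hP0 : ∀ i, P i ≠ 0 := fun i => ne_zero_of_natDegree_gt (hP i)
  have hle : Submonoid.powers (∏ i, P i) ≤ nonZeroDivisors F[X] :=
    powers_le_nonZeroDivisors_of_noZeroDivisors (prod_ne_zero_iff.2 fun i _ => hP0 i)
  let A := Localization.Away (∏ i, P i)
  have : IsDomain A := IsLocalization.isDomain_localization hle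
  have hinj : Function.Injective (algebraMap F[X] A) := IsLocalization.injective A hle
  have : CharP A p := charP_of_injective_algebraMap (algebraMap (ZMod p) A).injective p
  have : Algebra.FiniteType (ZMod p) F[X] :=
    Algebra.FiniteType.trans (S := F) inferInstance inferInstance
  have : Algebra.FiniteType (ZMod p) A :=
    Algebra.FiniteType.trans (S := F[X]) inferInstance inferInstance
  have hu : ∀ i, ∃ u : Aˣ, (u : A) = algebraMap F[X] A (P i) := fun i =>
    IsLocalization.Away.isUnit_of_dvd _ (dvd_prod_of_mem P (mem_univ i))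
  choose u hu using hu
  obtain ⟨d, hd⟩ := (Set.finite_range fun i => (a i).natDegree).bddAbove
  obtain ⟨L, hL⟩ : ∃ L, L = B + 1 + s.card * (d + 1) := ⟨_, rfl⟩
  obtain ⟨N, hN, hper⟩ := exists_period hP hc L
  have key : ∀ x : ι → ℤ, Lf (fun (o : Option ι) k => if o = some k then u k else 1)
      (fun o => o.elim (algebraMap F[X] A c) fun i => if i ∈ s then algebraMap F[X] A (a i) else 0)
      x = algebraMap F[X] A c + ∑ i ∈ s, algebraMap F[X] A (a i) * (u i ^ x i : Aˣ) := by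
    intro x
    have e : ∀ i, ch (fun (o : Option ι) k => if o = some k then u k else 1) x (some i) =
        u i ^ x i := fun i => by
      exact (prod_eq_single i (fun k _ hk => by simp [hk.symm]) (by simp)).trans (by simp)
    simp only [Lf, Fintype.sum_option, e]
    simp [ch]
  obtain ⟨J, hJ, hsk⟩ := skolem_mod (p := p) (fun (o : Option ι) k => if o = some k then u k else 1)
    (Set.finite_singleton fun o : Option ι => o.elim (algebraMap F[X] A c) fun i =>
      if i ∈ s then algebraMap F[X] A (a i) else 0) hN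
  obtain ⟨M, hM0, hM⟩ : ∃ M : F[X], M ≠ 0 ∧ algebraMap F[X] A M ∈ J := by
    obtain ⟨f, g, hfg, h⟩ := Finite.exists_ne_map_eq_of_infinite
      fun f : F[X] => Ideal.Quotient.mk J (algebraMap F[X] A f)
    exact ⟨f - g, sub_ne_zero.2 hfg, by rw [map_sub]; exact Ideal.Quotient.eq.1 h⟩
  refine ⟨L, M * ∏ i, P i ^ L, mul_ne_zero hM0 (prod_ne_zero_iff.2 fun i _ =>
    pow_ne_zero _ (hP0 i)), fun x hx hdiv => ?_⟩
  have hnat : ∀ z : ι → ℕ, algebraMap F[X] A (c + ∑ i ∈ s, a i * P i ^ z i) =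
      algebraMap F[X] A c + ∑ i ∈ s, algebraMap F[X] A (a i) * (u i ^ (z i : ℤ) : Aˣ) := by
    intro z
    simp [hu]
  obtain ⟨w, hw, hxw⟩ := hsk (fun k => x k) (by
    rintro _ rfl
    obtain ⟨e, he⟩ := (dvd_mul_right _ _).trans hdiv
    rw [key, ← hnat, he, map_mul]
    exact J.mul_mem_right _ hM)
  have hw := hw _ rfl
  rw [key] at hw
  obtain ⟨t, y, ht, hy⟩ : ∃ (t : ℕ) (y : ι → ℕ), N ∣ t ∧ ∀ i, (y i : ℤ) = w i + t := by
    obtain ⟨b, hb⟩ := (Set.finite_range fun i => (w i).natAbs).bddAbove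
    refine ⟨N * b, fun i => (w i + (N * b : ℕ)).toNat, dvd_mul_right _ _, fun i => ?_⟩
    have h1 : (w i).natAbs ≤ b := hb ⟨i, rfl⟩
    have h2 := Nat.le_mul_of_pos_left b hN
    beta_reduce
    omega
  have huy : ∀ i, algebraMap F[X] A (P i) ^ y i =
      (u i ^ w i : Aˣ) * algebraMap F[X] A (P i) ^ t := fun i => by
    rw [← hu, ← Units.val_pow_eq_pow_val, ← Units.val_pow_eq_pow_val, ← Units.val_mul,
      ← zpow_natCast, hy, zpow_add, zpow_natCast]
  have hblk : ∀ Q : F[X], ∃ y' : ι → ℕ, ∀ i₀, P i₀ = Q →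
      ∑ i ∈ s with P i = Q, a i * Q ^ y' i = ∑ i ∈ s with P i = Q, a i * Q ^ y i ∧
      ∀ i ∈ s.filter fun i => P i = Q, L + t ≤ y' i + s.card * (d + 1) := by
    intro Q
    by_cases hQ : ∃ i₀, P i₀ = Q
    swap
    · exact ⟨y, fun i₀ h => absurd ⟨i₀, h⟩ hQ⟩
    obtain ⟨i₀, rfl⟩ := hQ
    refine (shift_up (hP i₀) _ a (fun i _ => hd ⟨i, rfl⟩) (card_filter_le _ _) y ?_).imp
      fun y' h _ _ => h
    have hid : (∏ j ∈ s with ¬ P j = P i₀, P j) ^ t * ∑ i ∈ s with P i = P i₀, a i * P i₀ ^ y i =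
        -(P i₀ ^ t * (c * (∏ j ∈ s with ¬ P j = P i₀, P j) ^ t + ∑ j ∈ s with ¬ P j = P i₀,
          a j * P j ^ y j * (∏ l ∈ (s.filter fun j => ¬ P j = P i₀).erase j, P l) ^ t)) := by
      refine hinj ?_
      rw [← sum_filter_add_sum_filter_not s fun i => P i = P i₀] at hw
      have e1 : ∑ i ∈ s with P i = P i₀, algebraMap F[X] A (a i * P i₀ ^ y i) =
          (∑ i ∈ s with P i = P i₀, algebraMap F[X] A (a i) * (u i ^ w i : Aˣ)) *
            algebraMap F[X] A (P i₀) ^ t := by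
        rw [sum_mul]
        refine sum_congr rfl fun i hi => ?_
        rw [← (mem_filter.1 hi).2, map_mul, map_pow, huy, mul_assoc]
      have e2 : ∑ j ∈ s with ¬ P j = P i₀, algebraMap F[X] A (a j * P j ^ y j *
            (∏ l ∈ (s.filter fun j => ¬ P j = P i₀).erase j, P l) ^ t) =
          (∑ i ∈ s with ¬ P i = P i₀, algebraMap F[X] A (a i) * (u i ^ w i : Aˣ)) *
            algebraMap F[X] A (∏ j ∈ s with ¬ P j = P i₀, P j) ^ t := by
        rw [sum_mul]
        refine sum_congr rfl fun i hi => ?_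
        rw [← mul_prod_erase _ _ hi, map_mul, map_mul, map_pow, huy, map_mul, map_pow]
        ring
      rw [map_neg, map_mul, map_mul, map_add, map_sum _ _ (s.filter _), map_sum _ _ (s.filter _),
        e1, e2]
      simp only [map_mul, map_pow]
      linear_combination (algebraMap F[X] A (P i₀) ^ t *
        algebraMap F[X] A (∏ j ∈ s with ¬ P j = P i₀, P j) ^ t) * hw
    refine IsCoprime.dvd_of_dvd_mul_left (y := (∏ j ∈ s with ¬ P j = P i₀, P j) ^ t)
      (IsCoprime.pow (IsCoprime.prod_right fun j hj =>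
        (hc i₀ j).resolve_left fun h => (mem_filter.1 hj).2 h.symm)) ?_
    rw [hid, dvd_neg, add_comm L, pow_add]
    refine mul_dvd_mul_left _ ?_
    rw [← Ideal.mem_span_singleton, ← Ideal.Quotient.eq_zero_iff_mem]
    have e0 : ∀ T : Finset ι, (∀ j ∈ T, ¬ P j = P i₀) →
        Ideal.Quotient.mk (Ideal.span {P i₀ ^ L}) ((∏ j ∈ T, P j) ^ t) = 1 := by
      intro T hT
      obtain ⟨e, rfl⟩ := ht
      rw [map_pow, map_prod, ← prod_pow]
      exact prod_eq_one fun j hj => by rw [pow_mul, hper i₀ j (hT j hj), one_pow]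
    have e3 : Ideal.Quotient.mk (Ideal.span {P i₀ ^ L}) (c + ∑ i ∈ s, a i * P i ^ x i) = 0 := by
      rw [Ideal.Quotient.eq_zero_iff_mem, Ideal.mem_span_singleton]
      exact ((dvd_prod_of_mem (fun i => P i ^ L) (mem_univ i₀)).mul_left _).trans hdiv
    have e4 : Ideal.Quotient.mk (Ideal.span {P i₀ ^ L})
        (∑ i ∈ s with P i = P i₀, a i * P i ^ x i) = 0 := by
      rw [Ideal.Quotient.eq_zero_iff_mem, Ideal.mem_span_singleton]
      refine dvd_sum fun i hi => ?_
      rw [mem_filter] at hi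
      rw [hi.2]
      exact (pow_dvd_pow _ (hx i hi.1)).mul_left _
    rw [← sum_filter_add_sum_filter_not s fun i => P i = P i₀, map_add, map_add, e4, zero_add,
      map_sum] at e3
    rw [map_add, map_mul, e0 _ fun j hj => (mem_filter.1 hj).2, mul_one, map_sum, ← e3]
    congr 1
    refine sum_congr rfl fun j hj => ?_
    rw [map_mul, e0 _ fun l hl => (mem_filter.1 (mem_of_mem_erase hl)).2, mul_one, map_mul,
      map_mul, map_pow, map_pow]
    congr 1
    refine pow_eq_pow_of_modEq (Nat.modEq_iff_dvd.2 ?_) (hper i₀ j (mem_filter.1 hj).2)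
    rw [hy, ← sub_sub]
    exact (hxw j).sub (Int.natCast_dvd_natCast.2 ht)
  choose y' hy' using hblk
  have hge : ∀ i ∈ s, B + 1 + t ≤ y' (P i) i := fun i hi => by
    have := (hy' _ i rfl).2 i (mem_filter.2 ⟨hi, rfl⟩)
    omega
  obtain ⟨i₁, hi₁⟩ := hs
  have hsol : c + ∑ i ∈ s, a i * P i ^ (y' (P i) i - t) = 0 := by
    refine hinj ?_
    rw [map_zero, ← hw, map_add, map_sum]
    congr 1
    rw [← sum_fiberwise_of_maps_to (g := P) fun i hi => mem_image_of_mem P hi,
      ← sum_fiberwise_of_maps_to (g := P) (s := s) fun i hi => mem_image_of_mem P hi]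
    refine sum_congr rfl fun Q hQ => ?_
    obtain ⟨i₀, -, rfl⟩ := mem_image.1 hQ
    refine mul_right_cancel₀ (pow_ne_zero t ((map_ne_zero_iff _ hinj).2 (hP0 i₀))) ?_
    have e5 := congrArg (algebraMap F[X] A) (hy' _ i₀ rfl).1
    rw [map_sum, map_sum] at e5
    rw [sum_mul, sum_mul]
    refine (sum_congr rfl fun i hi => ?_).trans (e5.trans (sum_congr rfl fun i hi => ?_))
    · have := hge i (mem_filter.1 hi).1
      rw [(mem_filter.1 hi).2] at this ⊢
      rw [← map_pow, ← map_mul, mul_assoc, ← pow_add, Nat.sub_add_cancel (by omega)]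
    · rw [← (mem_filter.1 hi).2, map_mul, map_pow, huy, mul_assoc]
  have h1 := hB _ hsol i₁ hi₁
  have h2 := hge i₁ hi₁
  omega

theorem reduce (hP : ∀ i, 0 < (P i).natDegree) (hc : ∀ i j, P i = P j ∨ IsCoprime (P i) (P j))
    (a : ι → F[X]) (s : Finset ι) : ∀ (c : F[X]) (B : ℕ),
    (∀ x : ι → ℕ, c + ∑ i ∈ s, a i * P i ^ x i = 0 → ∀ i ∈ s, x i ≤ B) →
    ∃ M : F[X], M ≠ 0 ∧ ∀ x : ι → ℕ, M ∣ c + ∑ i ∈ s, a i * P i ^ x i →
      c + ∑ i ∈ s, a i * P i ^ x i = 0 := by
  classical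
  induction s using Finset.strongInduction with
  | H s ih =>
    intro c B hB
    rcases s.eq_empty_or_nonempty with rfl | hs
    · by_cases h : c = 0
      · exact ⟨1, one_ne_zero, fun x _ => by simp [h]⟩
      · refine ⟨c * X, mul_ne_zero h X_ne_zero, fun x hx => ?_⟩
        rw [sum_empty, add_zero] at hx
        have := natDegree_le_of_dvd hx h
        rw [natDegree_mul_X h] at this
        omega
    obtain ⟨L, M, hM, hL⟩ := no_large hP hc a c hs hB
    have e : ∀ i ∈ s, ∀ x : ι → ℕ, c + ∑ j ∈ s, a j * P j ^ x j =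
        c + a i * P i ^ x i + ∑ j ∈ s.erase i, a j * P j ^ x j := fun i hi x => by
      rw [add_assoc, add_sum_erase _ (fun j => a j * P j ^ x j) hi]
    choose M' hM' h' using fun q : s × Fin L =>
      ih _ (erase_ssubset q.1.2) (c + a q.1 * P q.1 ^ (q.2 : ℕ)) B fun x hx j hj => by
        have := hB (Function.update x q.1 q.2) (by
          rw [e _ q.1.2, Function.update_self, ← hx]
          congr 1
          exact sum_congr rfl fun l hl => by rw [Function.update_of_ne (ne_of_mem_erase hl)])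
          j (mem_of_mem_erase hj)
        rwa [Function.update_of_ne (ne_of_mem_erase hj)] at this
    refine ⟨M * ∏ q, M' q, mul_ne_zero hM (prod_ne_zero_iff.2 fun q _ => hM' q), fun x hx => ?_⟩
    by_cases h : ∀ i ∈ s, L ≤ x i
    · exact absurd ((dvd_mul_right _ _).trans hx) (hL x h)
    push Not at h
    obtain ⟨i, hi, hlt⟩ := h
    rw [e i hi] at hx ⊢
    exact h' (⟨i, hi⟩, ⟨x i, hlt⟩) x (((dvd_prod_of_mem M' (mem_univ _)).mul_left _).trans hx)

/-- the criterion. -/
theorem bf (hP : ∀ i, 0 < (P i).natDegree) (hc : ∀ i j, P i = P j ∨ IsCoprime (P i) (P j))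
    (a : ι → F[X]) (ha : ∀ i, a i ≠ 0) (c : F[X]) :
    (∃ M : F[X], M ≠ 0 ∧ ∀ x : ι → ℕ,
      c + ∑ i, a i * P i ^ x i = 0 ↔ M ∣ c + ∑ i, a i * P i ^ x i) ↔
    {x : ι → ℕ | c + ∑ i, a i * P i ^ x i = 0}.Finite := by
  classical
  constructor
  · rintro ⟨M, hM, h⟩
    have := fin_quot hM
    obtain ⟨B, hB⟩ := pigeon (Set.finite_univ (α := F[X] ⧸ Ideal.span {M}))
    refine (Set.Finite.pi' fun _ : ι => Set.finite_lt_nat B).subset fun x hx i => ?_
    by_contra hi
    have hi : B ≤ x i := not_lt.1 hi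
    obtain ⟨j, l, hl, hjl, he⟩ := hB (fun j => Ideal.Quotient.mk _ (P i ^ j)) fun _ => trivial
    have e : c + ∑ k, a k * P k ^ Function.update x i (x i + l) k =
        a i * P i ^ (x i - j) * (P i ^ (j + l) - P i ^ j) := by
      have hx : c + ∑ k, a k * P k ^ x k = 0 := hx
      rw [← add_sum_erase _ _ (mem_univ i)] at hx ⊢
      rw [Function.update_self, sum_congr rfl fun k hk => by
        rw [Function.update_of_ne (ne_of_mem_erase hk)], mul_sub, mul_assoc, mul_assoc, ← pow_add,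
        ← pow_add, show x i - j + (j + l) = x i + l by omega, show x i - j + j = x i by omega]
      linear_combination hx
    have h1 := (h _).2 (e ▸ (Ideal.mem_span_singleton.1 (Ideal.Quotient.eq.1 he)).mul_left _)
    rw [e, mul_eq_zero, mul_eq_zero, sub_eq_zero] at h1
    rcases h1 with (h1 | h1) | h1
    · exact ha i h1
    · exact ne_zero_of_natDegree_gt (hP i) (pow_eq_zero_iff'.1 h1).1
    · have := congrArg natDegree h1
      rw [natDegree_pow, natDegree_pow] at this
      have := Nat.eq_of_mul_eq_mul_right (hP i) this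
      omega
  · intro h
    obtain ⟨B, hB⟩ := ((h.prod (Set.finite_univ (α := ι))).image fun q => q.1 q.2).bddAbove
    obtain ⟨M, hM, h'⟩ := reduce hP hc a univ c B fun x hx i _ => hB ⟨(x, i), ⟨hx, trivial⟩, rfl⟩
    exact ⟨M, hM, fun x => ⟨fun h => h ▸ dvd_zero M, h' x⟩⟩

end SkP
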