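import Mathlib

/-! SK: the Cartier operator on polynomials over `ZMod p` and the trace formula. -/

namespace SkP
open MvPolynomial Finset

variable {p : ℕ} [Fact p.Prime] {σ : Type} [Fintype σ]

/-- exponent vector of a function. -/
noncomputable def ex (e : σ → ℕ) : σ →₀ ℕ := Finsupp.equivFunOnFinite.symm e

@[simp] theorem ex_apply (e : σ → ℕ) (a : σ) : ex e a = e a := rfl

open Classical in
/-- the Cartier operator: `t^(q m + q - 1) ↦ t^m`, other monomials go to zero. -/
noncomputable def car (p : ℕ) (q : ℕ) : MvPolynomial σ (ZMod p) →ₗ[ZMod p] MvPolynomial σ (ZMod p) :=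
  (basisMonomials σ (ZMod p)).constr (ZMod p) fun m =>
    if ∀ a, m a % q = q - 1 then monomial (ex fun a => m a / q) 1 else 0

open Classical in
theorem car_monomial (q : ℕ) (m : σ →₀ ℕ) (c : ZMod p) :
    car p q (monomial m c) =
      if ∀ a, m a % q = q - 1 then monomial (ex fun a => m a / q) c else 0 := by
  have h : (monomial m c : MvPolynomial σ (ZMod p)) = c • basisMonomials σ (ZMod p) m := by
    simp [smul_monomial]
  rw [h, map_smul, car, Module.Basis.constr_basis]
  split_ifs <;> simp [smul_monomial]

theorem mod_mul_iff {q q' m : ℕ} (hq : 0 < q) (hq' : 0 < q') :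
    m % (q * q') = q * q' - 1 ↔ m % q = q - 1 ∧ m / q % q' = q' - 1 := by
  rw [Nat.mod_mul]
  have h1 := Nat.mod_lt m hq
  have h2 := Nat.mod_lt (m / q) hq'
  obtain ⟨q', rfl⟩ : ∃ r, q' = r + 1 := ⟨q' - 1, by omega⟩
  generalize m % q = x at *
  generalize m / q % (q' + 1) = y at *
  have h3 : q * (q' + 1) = q * q' + q := by ring
  rw [h3]
  constructor
  · intro h
    have hy : y = q' := by
      by_contra hy
      have : q * (y + 1) ≤ q * q' := Nat.mul_le_mul_left _ (by omega)
      have h4 : q * (y + 1) = q * y + q := by ring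
      omega
    subst hy
    omega
  · rintro ⟨h4, h5⟩
    have : y = q' := by omega
    subst this
    omega

theorem car_car {q q' : ℕ} (hq : 0 < q) (hq' : 0 < q') (f : MvPolynomial σ (ZMod p)) :
    car p q' (car p q f) = car p (q * q') f := by
  induction f using MvPolynomial.induction_on' with
  | add f g hf hg => simp only [map_add, hf, hg]
  | monomial m c =>
    rw [car_monomial, car_monomial]
    simp only [mod_mul_iff hq hq', forall_and]
    by_cases h : ∀ a, m a % q = q - 1
    · rw [if_pos h, car_monomial]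
      simp only [ex_apply, h, implies_true, true_and, Nat.div_div_eq_div_mul]
    · rw [if_neg h, map_zero, if_neg (fun h' => h h'.1)]

theorem car_expand_mul {q : ℕ} (hq : 0 < q) (u v : MvPolynomial σ (ZMod p)) :
    car p q (expand q u * v) = u * car p q v := by
  induction u using MvPolynomial.induction_on' with
  | add f g hf hg => simp only [map_add, add_mul, hf, hg]
  | monomial m c =>
    induction v using MvPolynomial.induction_on' with
    | add f g hf hg => simp only [map_add, mul_add, hf, hg]
    | monomial n d =>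
      rw [expand_monomial, monomial_mul, car_monomial, car_monomial]
      simp only [Finsupp.coe_add, Finsupp.coe_smul, Pi.add_apply, Pi.smul_apply, smul_eq_mul,
        Nat.mul_add_mod]
      split_ifs with h
      · rw [monomial_mul]
        congr 2
        ext a
        simp [Nat.mul_add_div hq]
      · simp

theorem pow_eq_expand (j : ℕ) (u : MvPolynomial σ (ZMod p)) : u ^ p ^ j = expand (p ^ j) u := by
  induction j with
  | zero => simp
  | succ j ih => rw [pow_succ, pow_mul, ih, ← expand_zmod, mul_comm, expand_mul]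

theorem car_pow_mul (j : ℕ) (u v : MvPolynomial σ (ZMod p)) :
    car p (p ^ j) (u ^ p ^ j * v) = u * car p (p ^ j) v := by
  rw [pow_eq_expand, car_expand_mul (pow_pos (Fact.out : p.Prime).pos j)]

theorem car_deg {q D : ℕ} (hq : 0 < q) {f : MvPolynomial σ (ZMod p)}
    (h : f.totalDegree ≤ q * D) : (car p q f).totalDegree ≤ D := by
  classical
  rw [f.as_sum, map_sum]
  refine (totalDegree_finsetSum _ _).trans (Finset.sup_le fun m hm => ?_)
  rw [car_monomial]
  split_ifs
  · refine (totalDegree_monomial_le _ _).trans ?_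
    have h1 := (le_totalDegree hm).trans h
    rw [Finsupp.sum_fintype _ _ (fun _ => rfl)] at h1 ⊢
    have h2 : q * ∑ a, m a / q ≤ ∑ a, m a := by
      rw [Finset.mul_sum]
      exact Finset.sum_le_sum fun a _ => Nat.mul_div_le _ _
    exact Nat.le_of_mul_le_mul_left (h2.trans h1) hq
  · simp

/-- the monomial `t^e`. -/
noncomputable def mono (p : ℕ) (e : σ → ℕ) : MvPolynomial σ (ZMod p) := monomial (ex e) 1

theorem mono_add (e e' : σ → ℕ) (q : ℕ) :
    mono p (fun a => e a + q * e' a) = mono p e * mono p e' ^ q := by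
  unfold mono
  rw [monomial_pow, monomial_mul]
  congr 2
  · ext a; simp
  · simp

theorem mono_deg {e : σ → ℕ} {M : ℕ} (h : ∀ a, e a ≤ M) :
    (mono p e).totalDegree ≤ Fintype.card σ * M := by
  refine (totalDegree_monomial_le _ _).trans ?_
  rw [Finsupp.sum_fintype _ _ (fun _ => rfl)]
  simpa using Finset.sum_le_card_nsmul Finset.univ (fun a => e a) M fun a _ => h a

variable {K : Type} [Field K] [Fintype K]

theorem sum_pow_eq {D m : ℕ} (h : m ≤ (Fintype.card K - 1) * (D + 1)) :
    ∑ y : K, y ^ m = -∑ s : Fin (D + 1),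
      if (m + s) % Fintype.card K = Fintype.card K - 1 ∧ (m + s) / Fintype.card K = s
      then (1 : K) else 0 := by
  classical
  have hQ : 1 < Fintype.card K := Fintype.one_lt_card
  have key : ∀ s : ℕ, ((m + s) % Fintype.card K = Fintype.card K - 1 ∧
      (m + s) / Fintype.card K = s) ↔ m = (Fintype.card K - 1) * (s + 1) := by
    intro s
    obtain ⟨r, hr⟩ : ∃ r, Fintype.card K = r + 1 := ⟨Fintype.card K - 1, by omega⟩
    rw [hr, Nat.add_sub_cancel]
    constructor
    · rintro ⟨h1, h2⟩
      have := Nat.div_add_mod (m + s) (r + 1)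
      rw [h1, h2] at this
      nlinarith
    · intro h1
      have : m + s = r + (r + 1) * s := by rw [h1]; ring
      rw [this, Nat.add_mul_mod_self_left, Nat.add_mul_div_left _ _ (Nat.succ_pos r),
        Nat.mod_eq_of_lt (Nat.lt_succ_self r), Nat.div_eq_of_lt (Nat.lt_succ_self r), zero_add]
      exact ⟨rfl, rfl⟩
  simp only [key]
  by_cases hm : m = 0
  · subst hm
    rw [Finset.sum_eq_zero (s := univ) (f := fun s : Fin (D + 1) => _), neg_zero]
    · simp [FiniteField.cast_card_eq_zero]
    · intro s _
      rw [if_neg]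
      exact (Nat.mul_pos (by omega) (Nat.succ_pos _)).ne
  have h1 : ∑ y : K, y ^ m = ∑ x : Kˣ, (x ^ m : K) := by
    let φ : Kˣ ↪ K := ⟨fun x ↦ x, Units.val_injective⟩
    have : univ.map φ = univ \ {0} := by
      ext x
      simpa only [mem_map, mem_univ, Function.Embedding.coeFn_mk, true_and, mem_sdiff,
        mem_singleton, φ] using! isUnit_iff_ne_zero
    calc
      ∑ x : K, x ^ m = ∑ x ∈ univ \ {(0 : K)}, x ^ m := by
        rw [← sum_sdiff ({0} : Finset K).subset_univ, sum_singleton, zero_pow hm, add_zero]
      _ = ∑ x : Kˣ, (x ^ m : K) := by simp [φ, ← this, univ.sum_map φ]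
  rw [h1, FiniteField.sum_pow_units]
  split_ifs with hd
  · obtain ⟨k, rfl⟩ := hd
    have hk : k ≤ D + 1 := Nat.le_of_mul_le_mul_left h (by omega)
    have hk0 : k ≠ 0 := fun h0 => hm (by simp [h0])
    rw [Finset.sum_eq_single (⟨k - 1, by omega⟩ : Fin (D + 1))]
    · rw [if_pos (by congr 1; simp only; omega)]
    · intro s _ hs
      rw [if_neg]
      intro h2
      have := Nat.eq_of_mul_eq_mul_left (by omega) h2
      exact hs (Fin.ext (by simp only; omega))
    · simp
  · rw [Finset.sum_eq_zero, neg_zero]
    intro s _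
    rw [if_neg]
    rintro rfl
    exact hd (dvd_mul_right _ _)

/-- the trace formula. -/
theorem trace_formula [Algebra (ZMod p) K] [DecidableEq σ] {D : ℕ} {f : MvPolynomial σ (ZMod p)}
    (h : f.totalDegree ≤ (Fintype.card K - 1) * (D + 1)) :
    ∑ y : σ → K, aeval y f = (-1) ^ Fintype.card σ * algebraMap (ZMod p) K
      (∑ s : σ → Fin (D + 1), coeff (ex fun a => (s a : ℕ))
        (car p (Fintype.card K) (f * mono p fun a => (s a : ℕ)))) := by
  classical
  have hm : ∀ m ∈ f.support, ∀ a, m a ≤ (Fintype.card K - 1) * (D + 1) := fun m hm a =>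
    (monomial_le_degreeOf a hm).trans ((degreeOf_le_totalDegree f a).trans h)
  rw [f.as_sum]
  simp only [map_sum, Finset.sum_mul, coeff_sum, Finset.mul_sum]
  rw [Finset.sum_comm, Finset.sum_comm (s := univ)]
  refine Finset.sum_congr rfl fun m hm' => ?_
  simp only [aeval_monomial, mono, monomial_mul, car_monomial, mul_one]
  rw [← Finset.mul_sum]
  simp only [Finsupp.prod_fintype _ _ (fun _ => pow_zero _)]
  have h1 := Finset.prod_univ_sum (fun _ : σ => (univ : Finset K)) (fun a y => y ^ m a)
  rw [Fintype.piFinset_univ] at h1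
  rw [← h1, Finset.prod_congr rfl fun a _ => sum_pow_eq (hm m hm' a), Finset.prod_neg,
    Finset.prod_univ_sum, Fintype.piFinset_univ, Finset.mul_sum, Finset.mul_sum, card_univ]
  refine Finset.sum_congr rfl fun s _ => ?_
  rw [Finset.prod_boole]
  simp only [mem_univ, forall_const, forall_and, Finsupp.coe_add, Pi.add_apply, ex_apply]
  by_cases h2 : ∀ a, (m a + s a) % Fintype.card K = Fintype.card K - 1
  · rw [if_pos h2, coeff_monomial]
    simp only [h2, implies_true, true_and, Finsupp.ext_iff, ex_apply]
    split_ifs <;> simp [mul_comm]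
  · rw [if_neg h2, if_neg (fun h' => h2 h'.1)]
    simp

/-- a function with vanishing moments is zero. -/
theorem zero_of_moments [Algebra (ZMod p) K] [DecidableEq σ] (F : (σ → K) → K)
    (h : ∀ e : σ → ℕ, (∀ a, e a < Fintype.card K) → ∑ y, aeval y (mono p e) * F y = 0)
    (z : σ → K) : F z = 0 := by
  classical
  have h1 : ∑ y, eval y (indicator z) * F y = F z := by
    rw [Finset.sum_eq_single z]
    · rw [eval_indicator_apply_eq_one, one_mul]
    · intro y _ hy
      rw [eval_indicator_apply_eq_zero _ _ hy, zero_mul]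
    · simp
  have h2 := (mem_restrictDegree _ _ _).1 (indicator_mem_restrictDegree z)
  rw [← h1, (indicator z).as_sum]
  simp only [map_sum, Finset.sum_mul]
  rw [Finset.sum_comm]
  refine Finset.sum_eq_zero fun m hm => ?_
  have h3 := h (fun a => m a) fun a => by
    have := h2 m hm a
    have : 1 < Fintype.card K := Fintype.one_lt_card
    omega
  simp only [mono, aeval_monomial, map_one, one_mul,
    Finsupp.prod_fintype _ _ (fun _ => pow_zero _), ex_apply] at h3
  simp only [eval_monomial, Finsupp.prod_fintype _ _ (fun _ => pow_zero _), mul_assoc]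
  rw [← Finset.mul_sum, h3, mul_zero]

end SkP
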