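import Pool.Agent.Lib.MP_b7b898_nt.SK.Red

/-! SK: descent along Frobenius and the local-global principle. -/

namespace SkP
open MvPolynomial Finset

variable {p : ℕ} [Fact p.Prime] {ι κ : Type} [Fintype ι] [Fintype κ] {A : Type*} [CommRing A]

/-- the ring as a module over itself through Frobenius. -/
def FrM (_ : ℕ) (A : Type*) := A

instance : AddCommGroup (FrM p A) := inferInstanceAs (AddCommGroup A)

noncomputable instance [CharP A p] : Module A (FrM p A) :=
  haveI : ExpChar A p := ExpChar.prime Fact.out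
  Module.compHom A (frobenius A p)

/-- the identity map. -/
def toF (p : ℕ) [Fact p.Prime] : A ≃+ FrM p A := AddEquiv.refl A

theorem smul_toF [CharP A p] (a f : A) : a • toF p f = toF p (a ^ p * f) := rfl

theorem monomial_split {σ : Type} [Fintype σ] (m : σ →₀ ℕ) (c : ZMod p) :
    (monomial m c : MvPolynomial σ (ZMod p)) =
      monomial (ex fun a => m a / p) c ^ p * mono p fun a => m a % p := by
  unfold mono
  rw [monomial_pow, monomial_mul, ZMod.pow_card, mul_one]
  congr 2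
  ext a
  simp [Nat.div_add_mod]

variable [Algebra (ZMod p) A] [CharP A p] {σ : Type} [Fintype σ]

theorem exists_lam [IsDomain A] (φ : MvPolynomial σ (ZMod p) →ₐ[ZMod p] A)
    (hφ : Function.Surjective φ) :
    ∃ (E : Type) (_ : Fintype E) (τ : A) (β : E → A) (Λ : E → A →+ A), τ ≠ 0 ∧
      (∀ e a f, Λ e (a ^ p * f) = a * Λ e f) ∧ ∀ f, τ * f = ∑ e, β e * Λ e f ^ p := by
  classical
  have hp := (Fact.out : p.Prime)
  let v : (σ → Fin p) → FrM p A := fun γ => toF p (φ (mono p fun a => (γ a : ℕ)))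
  obtain ⟨s, hs', hm⟩ := exists_maximal_linearIndepOn A v
  have hs : LinearIndependent A fun x : s => v x := hs'
  have hm' : ∀ i, ∃ a : A, a ≠ 0 ∧ a • v i ∈ Submodule.span A (v '' s) := fun i => by
    by_cases hi : i ∈ s
    · exact ⟨1, one_ne_zero, by rw [one_smul]; exact Submodule.subset_span ⟨i, hi, rfl⟩⟩
    · exact hm i hi
  choose a ha0 ha using hm'
  have hall0 : ∀ h, (∏ i, a i) • toF p (φ h) ∈ Submodule.span A (v '' s) := by
    intro h
    induction h using MvPolynomial.induction_on' with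
    | add f g hf hg =>
      rw [map_add, map_add, smul_add]
      exact Submodule.add_mem _ hf hg
    | monomial m c =>
      rw [monomial_split, map_mul, map_pow, ← smul_toF, smul_comm, ← Finset.prod_erase_mul _ _
        (Finset.mem_univ fun a => ⟨m a % p, Nat.mod_lt _ hp.pos⟩), mul_smul]
      exact Submodule.smul_mem _ _ (Submodule.smul_mem _ _ (ha _))
  have hall : ∀ f : FrM p A, (∏ i, a i) • f ∈ Submodule.span A (Set.range fun x : s => v x) := by
    intro f
    rw [← Set.image_eq_range]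
    obtain ⟨f, rfl⟩ := (toF p).surjective f
    obtain ⟨h, rfl⟩ := hφ f
    exact hall0 h
  let T : FrM p A →ₗ[A] (s →₀ A) := (LinearIndependent.repr hs).comp
    (LinearMap.codRestrict _ ((∏ i, a i) • LinearMap.id) hall)
  refine ⟨s, inferInstance, (∏ i, a i) ^ p, fun e => φ (mono p fun a => (e.1 a : ℕ)),
    fun e => ((Finsupp.lapply e).comp T).toAddMonoidHom.comp (toF p).toAddMonoidHom,
    pow_ne_zero _ (Finset.prod_ne_zero_iff.2 fun i _ => ha0 i), fun e b f => ?_, fun f => ?_⟩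
  · exact ((Finsupp.lapply e).comp T).map_smul b (toF p f)
  · have h1 := LinearIndependent.linearCombination_repr hs ⟨_, hall (toF p f)⟩
    rw [Finsupp.linearCombination_apply, Finsupp.sum_fintype _ _ (fun _ => by simp)] at h1
    refine (toF p).injective ?_
    rw [← smul_toF, map_sum]
    refine h1.symm.trans (Finset.sum_congr rfl fun e _ => ?_)
    rw [mul_comm, ← smul_toF]
    rfl

/-- degree filtration. -/
def Dg (φ : MvPolynomial σ (ZMod p) →ₐ[ZMod p] A) (m : ℕ) (f : A) : Prop :=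
  ∃ h : MvPolynomial σ (ZMod p), h.totalDegree ≤ m ∧ φ h = f

theorem Dg.mono {φ : MvPolynomial σ (ZMod p) →ₐ[ZMod p] A} {m n : ℕ} {f : A} (h : Dg φ m f)
    (hn : m ≤ n) : Dg φ n f :=
  h.imp fun _ h => ⟨h.1.trans hn, h.2⟩

theorem Dg.mul {φ : MvPolynomial σ (ZMod p) →ₐ[ZMod p] A} {m n : ℕ} {f g : A} (h : Dg φ m f)
    (h' : Dg φ n g) : Dg φ (m + n) (f * g) := by
  obtain ⟨u, hu, rfl⟩ := h
  obtain ⟨v, hv, rfl⟩ := h'
  exact ⟨u * v, (totalDegree_mul _ _).trans (add_le_add hu hv), map_mul _ _ _⟩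

theorem dg_bound {φ : MvPolynomial σ (ZMod p) →ₐ[ZMod p] A} (hφ : Function.Surjective φ)
    {Y : Set A} (hY : Y.Finite) : ∃ G, ∀ f ∈ Y, Dg φ G f := by
  obtain ⟨G, hG⟩ := (hY.image fun f => (Function.surjInv hφ f).totalDegree).bddAbove
  exact ⟨G, fun f hf => ⟨_, hG ⟨f, hf, rfl⟩, Function.surjInv_eq hφ f⟩⟩

theorem dg_finite (φ : MvPolynomial σ (ZMod p) →ₐ[ZMod p] A) (m : ℕ) : {f | Dg φ m f}.Finite :=
  (deg_finite m).image φ

theorem dg_lam {φ : MvPolynomial σ (ZMod p) →ₐ[ZMod p] A} (hφ : Function.Surjective φ) {E : Type}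
    [Fintype E] {Λ : E → A →+ A} (hΛ : ∀ e a f, Λ e (a ^ p * f) = a * Λ e f) :
    ∃ C, ∀ m e f, Dg φ (p * m) f → Dg φ (m + C) (Λ e f) := by
  classical
  have hp := (Fact.out : p.Prime)
  obtain ⟨C, hC⟩ := dg_bound hφ (Set.finite_range fun q : E × (σ → Fin p) =>
    Λ q.1 (φ (mono p fun a => (q.2 a : ℕ))))
  refine ⟨C, ?_⟩
  rintro m e _ ⟨h, hh, rfl⟩
  have key : ∀ d ∈ h.support, Dg φ (m + C) (Λ e (φ (monomial d (coeff d h)))) := by
    intro d hd
    rw [monomial_split, map_mul, map_pow, hΛ]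
    refine Dg.mul ⟨_, (totalDegree_monomial_le _ _).trans ?_, rfl⟩
      (hC _ ⟨(e, fun a => ⟨d a % p, Nat.mod_lt _ hp.pos⟩), rfl⟩)
    have h1 := (le_totalDegree hd).trans hh
    rw [Finsupp.sum_fintype _ _ (fun _ => rfl)] at h1 ⊢
    have h2 : p * ∑ a, d a / p ≤ ∑ a, d a := by
      rw [Finset.mul_sum]
      exact Finset.sum_le_sum fun a _ => Nat.mul_div_le _ _
    exact Nat.le_of_mul_le_mul_left (h2.trans h1) hp.pos
  choose! u hu hu' using key
  refine ⟨∑ d ∈ h.support, u d, (totalDegree_finsetSum _ _).trans (Finset.sup_le hu), ?_⟩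
  conv_rhs => rw [h.as_sum]
  simp only [map_sum]
  exact Finset.sum_congr rfl hu'

/-- transition of coefficient systems. -/
def dl {E : Type} (Λ : E → A →+ A) (α : ι → κ → Aˣ) (a : κ → ℤ) (W : Set (ι → A)) :
    Set (ι → A) :=
  {c' | ∃ c ∈ W, ∃ e, c' = fun i => Λ e (c i * ch α a i)}

theorem has_up {α : ι → κ → Aˣ} {W : Set (ι → A)} {ρ : ℕ} (h : Has p α W ρ) :
    Has p α W (ρ + 1) := by
  obtain ⟨w, hw⟩ := h
  refine ⟨fun k => (p ^ 1 : ℕ) * w k, fun c hc => ?_⟩
  have := Lf_pow (p := p) α (fun i => c i ^ p ^ ρ) w 1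
  rw [hw c hc, zero_pow (pow_pos (Fact.out : p.Prime).pos 1).ne'] at this
  simp only [← pow_mul, ← pow_add] at this
  exact this.symm

theorem has_down [IsDomain A] {E : Type} [Fintype E] {τ : A} {β : E → A} {Λ : E → A →+ A}
    (hτ : τ ≠ 0) (hβ : ∀ f, τ * f = ∑ e, β e * Λ e f ^ p) {α : ι → κ → Aˣ} {a : κ → ℤ}
    {W : Set (ι → A)} {ρ : ℕ} (h : Has p α (dl Λ α a W) ρ) : Has p α W (ρ - 1) := by
  have : ExpChar A p := ExpChar.prime Fact.out
  obtain ⟨r, hr, w, hw⟩ : ∃ r, r = ρ - 1 ∧ Has p α (dl Λ α a W) (r + 1) := by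
    cases ρ with
    | zero => exact ⟨0, rfl, has_up h⟩
    | succ r => exact ⟨r, rfl, h⟩
  rw [← hr]
  refine ⟨fun k => w k + (p ^ r : ℕ) * a k, fun c hc => ?_⟩
  refine mul_left_cancel₀ (pow_ne_zero (p ^ r) hτ) ?_
  have h1 : ∀ i, τ ^ p ^ r * (c i ^ p ^ r * (ch α (fun k => w k + (p ^ r : ℕ) * a k) i : A)) =
      ∑ e, β e ^ p ^ r * (Λ e (c i * ch α a i) ^ p ^ (r + 1) * ch α w i) := by
    intro i
    have h2 := congrArg (· ^ p ^ r) (hβ (c i * ch α a i))
    simp only [sum_pow_char_pow, mul_pow, ← pow_mul, ← pow_succ'] at h2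
    simp only [← mul_assoc, ← Finset.sum_mul, ← h2, ch_add, Units.val_mul,
      Units.val_pow_eq_pow_val]
    ring
  rw [mul_zero, Lf, Finset.mul_sum, Finset.sum_congr rfl fun i _ => h1 i, Finset.sum_comm]
  refine Finset.sum_eq_zero fun e _ => ?_
  rw [← Finset.mul_sum]
  exact mul_eq_zero_of_right _ (hw _ ⟨c, hc, e, rfl⟩)

/-- Frobenius power of an ideal. -/
def Fr (p : ℕ) (I : Ideal A) : Ideal A := Ideal.span ((· ^ p) '' (I : Set A))

theorem fr_le (I : Ideal A) : Fr p I ≤ I :=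
  Ideal.span_le.2 (by
    rintro _ ⟨a, ha, rfl⟩
    exact I.pow_mem_of_mem ha _ (Fact.out : p.Prime).pos)

theorem fr_finite [IsNoetherianRing A] {I : Ideal A} (h : Finite (A ⧸ I)) :
    Finite (A ⧸ Fr p I) := by
  obtain ⟨n, hn⟩ := Ideal.exists_pow_le_of_le_radical_of_fg (I := I) (J := Fr p I)
    (fun a ha => ⟨p, Ideal.subset_span ⟨a, ha, rfl⟩⟩) (IsNoetherian.noetherian I)
  have := Ideal.finite_quotient_pow (IsNoetherian.noetherian I) n
  exact Finite.of_surjective _ (Ideal.Quotient.factor_surjective hn)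

theorem lam_mem {Λ : A →+ A} (hΛ : ∀ a f, Λ (a ^ p * f) = a * Λ f) {I : Ideal A} {f : A}
    (hf : f ∈ Fr p I) : Λ f ∈ I := by
  have : ∀ g, Λ (f * g) ∈ I := by
    induction hf using Submodule.span_induction with
    | mem x hx =>
      obtain ⟨a, ha, rfl⟩ := hx
      exact fun g => hΛ a g ▸ I.mul_mem_right _ ha
    | zero => simp
    | add x y _ _ hx hy => exact fun g => by rw [add_mul, map_add]; exact I.add_mem (hx g) (hy g)
    | smul a x _ hx => exact fun g => by rw [smul_eq_mul, mul_comm a, mul_assoc]; exact hx _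
  simpa using this 1

theorem lam_Lf {Λ : A →+ A} (hΛ : ∀ a f, Λ (a ^ p * f) = a * Λ f) (α : ι → κ → Aˣ) (c : ι → A)
    (x : κ → ℤ) : Λ (Lf α c x) =
      Lf α (fun i => Λ (c i * ch α (fun k => x k % p) i)) fun k => x k / p := by
  unfold Lf
  rw [map_sum]
  refine Finset.sum_congr rfl fun i _ => ?_
  have := ch_add α (fun k => x k % p) (fun k => x k / p) p i
  simp only [Int.emod_add_mul_ediv] at this
  rw [mul_comm (Λ _), ← hΛ, show ch α x i = _ from this]
  congr 1
  push_cast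
  ring

theorem finite_inf {T : Type*} [Finite T] (I : T → Ideal A) (h : ∀ t, Finite (A ⧸ I t)) :
    ∃ J : Ideal A, Finite (A ⧸ J) ∧ ∀ t, J ≤ I t :=
  ⟨RingHom.ker (RingHom.pi fun t => Ideal.Quotient.mk (I t)),
    Finite.of_injective _ (RingHom.kerLift_injective _),
    fun t _ ha => Ideal.Quotient.eq_zero_iff_mem.1 (congrFun ((RingHom.mem_ker).1 ha) t)⟩

/-- the exponential local-global principle. -/
theorem skolem [IsDomain A] [Algebra.FiniteType (ZMod p) A] (α : ι → κ → Aˣ) {W : Set (ι → A)}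
    (hW : W.Finite) : ∃ J : Ideal A, Finite (A ⧸ J) ∧
      ∀ x : κ → ℤ, (∀ c ∈ W, Lf α c x ∈ J) → ∃ w, ∀ c ∈ W, Lf α c w = 0 := by
  classical
  have hp := (Fact.out : p.Prime)
  have hN : IsNoetherianRing A := Algebra.FiniteType.isNoetherianRing (ZMod p) A
  obtain ⟨n, φ, hφ⟩ := Algebra.FiniteType.iff_quotient_mvPolynomial''.1
    (inferInstance : Algebra.FiniteType (ZMod p) A)
  obtain ⟨E, _, τ, β, Λ, hτ, hΛ, hβ⟩ := exists_lam φ hφ
  obtain ⟨C, hC⟩ := dg_lam hφ hΛ
  obtain ⟨G, hG⟩ := dg_bound hφ ((Set.finite_range fun q : (κ → Fin p) × ι =>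
    (ch α (fun k => (q.1 k : ℕ)) q.2 : A)).union
      ((hW.prod (Set.finite_univ (α := ι))).image fun q => q.1 q.2))
  have hU := Set.Finite.pi' fun _ : ι => dg_finite φ (G + C + C)
  have hY := hU.finite_subsets
  have := hY.to_subtype
  choose I hI hI' using fun Z : {Z | Z ⊆ {c : ι → A | ∀ i, c i ∈ {f | Dg φ (G + C + C) f}}} =>
    red (p := p) α (hU.subset Z.2)
  obtain ⟨I0, hI0, hle⟩ := finite_inf I hI
  obtain ⟨B, hB⟩ := pigeon hY
  refine ⟨(Fr p)^[B] I0, ?_, fun x hx => ?_⟩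
  · clear hB
    induction B with
    | zero => exact hI0
    | succ B ih => rw [Function.iterate_succ_apply']; exact fr_finite ih
  let st : ℕ → (κ → ℤ) × Set (ι → A) := fun j => Nat.rec (x, W)
    (fun _ q => (fun k => q.1 k / p, dl Λ α (fun k => q.1 k % p) q.2)) j
  have h1 : ∀ j, (st j).2 ⊆ {c : ι → A | ∀ i, c i ∈ {f | Dg φ (G + C + C) f}} := by
    intro j
    induction j with
    | zero => exact fun c hc i => (hG _ (Or.inr ⟨(c, i), ⟨hc, trivial⟩, rfl⟩)).mono (by omega)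
    | succ j ih =>
      rintro _ ⟨c, hc, e, rfl⟩ i
      have h0 : ∀ k, 0 ≤ (st j).1 k % p ∧ (st j).1 k % p < p := fun k =>
        ⟨Int.emod_nonneg _ (by have := hp.pos; omega), Int.emod_lt_of_pos _ (by have := hp.pos; omega)⟩
      have h2 := hG _ (Or.inl ⟨(fun k => ⟨((st j).1 k % p).toNat, by have := h0 k; omega⟩, i), rfl⟩)
      simp only [fun k => Int.toNat_of_nonneg (h0 k).1] at h2
      refine hC _ e _ (((ih hc i).mul h2).mono ?_)
      have := Nat.mul_le_mul_right (G + C) hp.two_le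
      omega
  have h2 : ∀ j r, r + j = B → ∀ c ∈ (st j).2, Lf α c (st j).1 ∈ (Fr p)^[r] I0 := by
    intro j
    induction j with
    | zero => rintro r rfl; exact hx
    | succ j ih =>
      rintro r hr _ ⟨c, hc, e, rfl⟩
      have h3 := ih (r + 1) (by omega) c hc
      rw [Function.iterate_succ_apply'] at h3
      have h4 := lam_mem (hΛ e) h3
      rwa [lam_Lf (hΛ e)] at h4
  have h3 : ∀ r, (Fr p)^[r] I0 ≤ I0 := fun r => by
    induction r with
    | zero => exact le_rfl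
    | succ r ih => rw [Function.iterate_succ_apply']; exact (fr_le _).trans ih
  have h4 : ∀ l j ρ, Has p α (st (j + l)).2 ρ → Has p α (st j).2 (ρ - l) := by
    intro l
    induction l with
    | zero => exact fun _ _ h => h
    | succ l ih => exact fun j ρ h => by rw [Nat.sub_succ', Nat.sub_right_comm]; exact ih j _ (has_down hτ hβ h)
  obtain ⟨j, l, hl, hjl, he⟩ := hB (fun j => (st j).2) h1
  obtain ⟨ρ, hρ⟩ := hI' ⟨_, h1 j⟩ (st j).1 fun c hc =>
    hle _ (h3 _ (h2 j (B - j) (by omega) c hc))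
  have h5 : Has p α (st j).2 0 := by
    induction ρ using Nat.strong_induction_on with
    | _ ρ ih =>
      rcases Nat.eq_zero_or_pos ρ with rfl | h
      · exact hρ
      · exact ih (ρ - l) (by omega) (h4 l j ρ (he ▸ hρ))
  obtain ⟨w, hw⟩ := h4 j 0 0 (by rwa [zero_add])
  exact ⟨w, fun c hc => by simpa using hw c hc⟩

/-- the same inside residue classes of exponents. -/
theorem skolem_mod [IsDomain A] [Algebra.FiniteType (ZMod p) A] (α : ι → κ → Aˣ)
    {W : Set (ι → A)} (hW : W.Finite) {N : ℕ} (hN : 0 < N) : ∃ J : Ideal A, Finite (A ⧸ J) ∧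
      ∀ x : κ → ℤ, (∀ c ∈ W, Lf α c x ∈ J) →
        ∃ w, (∀ c ∈ W, Lf α c w = 0) ∧ ∀ k, (N : ℤ) ∣ x k - w k := by
  classical
  have key : ∀ (c : ι → A) (r y : κ → ℤ), Lf (fun i k => α i k ^ N)
      (fun i => c i * ch α r i) y = Lf α c fun k => r k + N * y k := by
    intro c r y
    refine Finset.sum_congr rfl fun i _ => ?_
    have : ch (fun i k => α i k ^ N) y i = ch α y i ^ N := by
      unfold ch
      rw [← Finset.prod_pow]
      exact Finset.prod_congr rfl fun k _ => by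
        simp only [← zpow_natCast, ← zpow_mul, mul_comm]
    rw [ch_add, this, Units.val_mul, mul_assoc]
  choose I hI hI' using fun r : κ → Fin N => skolem (p := p) (fun i k => α i k ^ N)
    (hW.image fun c i => c i * (ch α (fun k => (r k : ℕ)) i : A))
  obtain ⟨J, hJ, hle⟩ := finite_inf I hI
  refine ⟨J, hJ, fun x hx => ?_⟩
  have h0 : ∀ k, 0 ≤ x k % N ∧ x k % N < N := fun k =>
    ⟨Int.emod_nonneg _ (by omega), Int.emod_lt_of_pos _ (by omega)⟩
  obtain ⟨w, hw⟩ := hI' (fun k => ⟨(x k % N).toNat, by have := h0 k; omega⟩) (fun k => x k / N) (by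
    rintro _ ⟨c, hc, rfl⟩
    simp only [key, fun k => Int.toNat_of_nonneg (h0 k).1, Int.emod_add_mul_ediv]
    exact hle _ (hx c hc))
  refine ⟨fun k => x k % N + N * w k, fun c hc => ?_, fun k => ⟨x k / N - w k, ?_⟩⟩
  · have := hw _ ⟨c, hc, rfl⟩
    simpa only [key, fun k => Int.toNat_of_nonneg (h0 k).1] using this
  · have := Int.emod_add_mul_ediv (x k) N
    linear_combination -this

end SkP
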