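import Pool.Agent.Lib.MP_b7b898_nt.SK.Auto

/-! SK: the reduced part of the local-global principle. -/

namespace SkP
open MvPolynomial Finset

variable {p : ℕ} [Fact p.Prime] {ι κ : Type} [Fintype ι] [Fintype κ] {A : Type*} [CommRing A]

/-- the power product attached to the term `i`. -/
def ch (α : ι → κ → Aˣ) (x : κ → ℤ) (i : ι) : Aˣ := ∏ k, α i k ^ x k

/-- the exponential sum. -/
def Lf (α : ι → κ → Aˣ) (c : ι → A) (x : κ → ℤ) : A := ∑ i, c i * (ch α x i : A)

/-- a solution with exponents in `p^(-ρ) ℤ`. -/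
def Has (p : ℕ) (α : ι → κ → Aˣ) (W : Set (ι → A)) (ρ : ℕ) : Prop :=
  ∃ w : κ → ℤ, ∀ c ∈ W, Lf α (fun i => c i ^ p ^ ρ) w = 0

theorem ch_nat (α : ι → κ → Aˣ) (x : κ → ℕ) (i : ι) :
    (ch α (fun k => (x k : ℤ)) i : A) = ∏ k, (α i k : A) ^ x k := by
  simp [ch]

theorem ch_add (α : ι → κ → Aˣ) (x y : κ → ℤ) (q : ℕ) (i : ι) :
    ch α (fun k => x k + q * y k) i = ch α x i * ch α y i ^ q := by
  unfold ch
  rw [← Finset.prod_pow, ← Finset.prod_mul_distrib]
  refine Finset.prod_congr rfl fun k _ => ?_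
  rw [zpow_add, mul_comm (q : ℤ), zpow_mul, zpow_natCast]

theorem Lf_pow [CharP A p] (α : ι → κ → Aˣ) (c : ι → A) (x : κ → ℤ) (ρ : ℕ) :
    Lf α c x ^ p ^ ρ = Lf α (fun i => c i ^ p ^ ρ) fun k => (p ^ ρ : ℕ) * x k := by
  have : ExpChar A p := ExpChar.prime Fact.out
  unfold Lf
  rw [sum_pow_char_pow]
  refine Finset.sum_congr rfl fun i _ => ?_
  have := ch_add α (fun _ => 0) x (p ^ ρ) i
  simp only [zero_add] at this
  rw [this, mul_pow]
  simp [ch]

theorem Lf_congr {L : Type*} [Field L] [Fintype L] (ψ : A →+* L) (α : ι → κ → Aˣ) (c : ι → A)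
    {x y : κ → ℤ} (h : ∀ k, x k ≡ y k [ZMOD ((Fintype.card L - 1 : ℕ) : ℤ)]) :
    ψ (Lf α c x) = ψ (Lf α c y) := by
  classical
  unfold Lf
  simp only [map_sum, map_mul]
  refine Finset.sum_congr rfl fun i _ => ?_
  congr 1
  have : Units.map (ψ : A →* L) (ch α x i) = Units.map (ψ : A →* L) (ch α y i) := by
    unfold ch
    simp only [map_prod, map_zpow]
    refine Finset.prod_congr rfl fun k _ => ?_
    have h1 : Units.map (ψ : A →* L) (α i k) ^ (Fintype.card L - 1) = 1 := by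
      rw [← Fintype.card_units, pow_card_eq_one]
    rw [zpow_eq_zpow_emod' (x k) h1, zpow_eq_zpow_emod' (y k) h1, h k]
  exact congrArg Units.val this

theorem rep_mul {n q d : ℕ} (h : ((q ^ d : ℕ) : ZMod n) = 1) (M : ℕ) :
    (rep q (d * M) : ZMod n) = M * rep q d := by
  induction M with
  | zero => simp [rep]
  | succ M ih =>
    rw [mul_add, mul_one, rep_add, pow_mul]
    push_cast at h ⊢
    rw [ih, h]
    ring

variable [Algebra (ZMod p) A] {σ : Type} [Fintype σ]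

theorem hom_eq {K : Type*} [CommRing K] [Algebra (ZMod p) K] (φ : MvPolynomial σ (ZMod p) →ₐ[ZMod p] A)
    (ψ : A →+* K) (f : MvPolynomial σ (ZMod p)) : aeval (fun a => ψ (φ (X a))) f = ψ (φ f) := by
  have : (aeval fun a => ψ (φ (X a)) : MvPolynomial σ (ZMod p) →ₐ[ZMod p] K).toRingHom =
      ψ.comp φ.toRingHom :=
    MvPolynomial.ringHom_ext' (Subsingleton.elim _ _) fun a => by simp
  exact RingHom.congr_fun this f

theorem van_iff (φ : MvPolynomial σ (ZMod p) →ₐ[ZMod p] A) (hφ : Function.Surjective φ)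
    (Γ : Finset (MvPolynomial σ (ZMod p))) (hΓ : Ideal.span (Γ : Set _) = RingHom.ker φ)
    (α : ι → κ → Aˣ) (W : Set (ι → A)) (K : Type) [Field K] [Fintype K] [Algebra (ZMod p) K]
    {j : ℕ} (hK : Fintype.card K = p ^ j) (x : κ → ℕ) :
    Van (fun q : ι × Finset Γ => ∏ g ∈ q.2, (g : MvPolynomial σ (ZMod p)))
      (fun q k => Function.surjInv hφ (α q.1 k))
      ((fun (c : ι → A) (q : ι × Finset Γ) => (-1) ^ q.2.card * Function.surjInv hφ (c q.1)) '' W)
      K j x ↔ ∀ c ∈ W, ∀ ψ : A →+* K, ψ (Lf α c fun k => (x k : ℤ)) = 0 := by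
  classical
  have hQ : 1 < p ^ j := hK ▸ Fintype.one_lt_card
  have key : ∀ (c : ι → A) (y : σ → K), aeval y (∑ q : ι × Finset Γ,
      wt (fun q : ι × Finset Γ => ∏ g ∈ q.2, (g : MvPolynomial σ (ZMod p)))
        (fun q k => Function.surjInv hφ (α q.1 k)) j x q *
        ((-1) ^ q.2.card * Function.surjInv hφ (c q.1))) =
      aeval y (∑ i, Function.surjInv hφ (c i) * ∏ k, Function.surjInv hφ (α i k) ^ x k) *
        ∏ g : Γ, (1 + -(aeval y (g : MvPolynomial σ (ZMod p))) ^ (p ^ j - 1)) := by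
    intro c y
    rw [Finset.prod_one_add, Finset.powerset_univ, Fintype.sum_prod_type, map_sum, map_sum,
      Finset.sum_mul_sum]
    refine Finset.sum_congr rfl fun i _ => ?_
    rw [map_sum]
    refine Finset.sum_congr rfl fun T _ => ?_
    rw [Finset.prod_neg, Finset.prod_pow]
    simp only [wt, map_mul, map_pow, map_prod, map_neg, map_one]
    ring
  have hL : ∀ c : ι → A, φ (∑ i, Function.surjInv hφ (c i) *
      ∏ k, Function.surjInv hφ (α i k) ^ x k) = Lf α c fun k => (x k : ℤ) := by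
    intro c
    simp only [Lf, ch_nat, map_sum, map_mul, map_prod, map_pow, Function.surjInv_eq hφ]
  constructor
  · intro hV c hc ψ
    have h1 := hV _ ⟨c, hc, rfl⟩ fun a => ψ (φ (X a))
    rw [key, hom_eq, hL, Finset.prod_eq_one, mul_one] at h1
    · exact h1
    · intro g _
      have : (g : MvPolynomial σ (ZMod p)) ∈ RingHom.ker φ := hΓ ▸ Ideal.subset_span g.2
      rw [hom_eq, (RingHom.mem_ker).1 this, map_zero, zero_pow (by omega), neg_zero, add_zero]
  · rintro hV _ ⟨c, hc, rfl⟩ y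
    rw [key]
    by_cases hy : ∀ g ∈ Γ, aeval y g = 0
    · have hk : RingHom.ker φ.toRingHom ≤
          RingHom.ker (aeval y : MvPolynomial σ (ZMod p) →ₐ[ZMod p] K).toRingHom := by
        have : Ideal.span (Γ : Set _) ≤
            RingHom.ker (aeval y : MvPolynomial σ (ZMod p) →ₐ[ZMod p] K).toRingHom :=
          Ideal.span_le.2 fun g hg => hy g hg
        rw [hΓ] at this
        exact this
      have h1 := hV c hc (φ.toRingHom.liftOfSurjective hφ ⟨_, hk⟩)
      rw [← hL] at h1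
      have h2 := φ.toRingHom.liftOfSurjective_comp_apply hφ ⟨_, hk⟩
        (∑ i, Function.surjInv hφ (c i) * ∏ k, Function.surjInv hφ (α i k) ^ x k)
      have h3 : aeval y (∑ i, Function.surjInv hφ (c i) *
        ∏ k, Function.surjInv hφ (α i k) ^ x k) = 0 := h2.symm.trans h1
      rw [h3, zero_mul]
    · push Not at hy
      obtain ⟨g, hg, hg0⟩ := hy
      rw [Finset.prod_eq_zero (Finset.mem_univ (⟨g, hg⟩ : Γ)), mul_zero]
      rw [← hK, FiniteField.pow_card_sub_one_eq_one _ hg0, add_neg_cancel]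

/-- the reduced part. -/
theorem red [IsDomain A] [CharP A p] [Algebra.FiniteType (ZMod p) A] (α : ι → κ → Aˣ)
    {W : Set (ι → A)} (hW : W.Finite) : ∃ I : Ideal A, Finite (A ⧸ I) ∧
      ∀ x : κ → ℤ, (∀ c ∈ W, Lf α c x ∈ I) → ∃ ρ, Has p α W ρ := by
  classical
  have hp := (Fact.out : p.Prime)
  obtain ⟨n, φ, hφ⟩ := Algebra.FiniteType.iff_quotient_mvPolynomial''.1
    (inferInstance : Algebra.FiniteType (ZMod p) A)
  obtain ⟨Γ, hΓ⟩ : (RingHom.ker φ).FG := IsNoetherian.noetherian _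
  obtain ⟨B, hB⟩ := pump (fun q : ι × Finset Γ => ∏ g ∈ q.2, (g : MvPolynomial (Fin n) (ZMod p)))
    (fun q k => Function.surjInv hφ (α q.1 k)) (hW.image fun (c : ι → A) (q : ι × Finset Γ) =>
      (-1) ^ q.2.card * Function.surjInv hφ (c q.1))
  have hG : ∀ N, N ≠ 0 → @Fintype.card (GaloisField p N) (Fintype.ofFinite _) = p ^ N :=
    fun N hN => by rw [← GaloisField.card p N hN]; exact (@Nat.card_eq_fintype_card _ (Fintype.ofFinite _)).symm
  have hfin : Finite (A →+* GaloisField p B.factorial) :=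
    Finite.of_injective (fun ψ a => ψ (φ (X a))) fun ψ ψ' h => RingHom.ext fun t => by
      obtain ⟨f, rfl⟩ := hφ t
      rw [← hom_eq, ← hom_eq]
      exact congrArg (fun y => aeval y f) h
  refine ⟨RingHom.ker (RingHom.pi fun ψ : A →+* GaloisField p B.factorial => ψ),
    Finite.of_injective _ (RingHom.kerLift_injective _), fun x hx => ?_⟩
  letI := Fintype.ofFinite (GaloisField p B.factorial)
  have hK := hG _ B.factorial_ne_zero
  have hQ : 1 < p ^ B.factorial := hK ▸ Fintype.one_lt_card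
  have hQ0 : ((p ^ B.factorial - 1 : ℕ) : ℤ) ≠ 0 := by omega
  obtain ⟨j, l, ρ, u, v, z, hl, hlB, hN, hV⟩ := hB B.factorial (Nat.self_le_factorial B) _ hK
    (fun k => (x k % (p ^ B.factorial - 1 : ℕ)).toNat) (fun k => by
      have := Int.emod_lt_of_pos (x k) (show (0 : ℤ) < (p ^ B.factorial - 1 : ℕ) by omega)
      omega)
    ((van_iff φ hφ Γ hΓ α W _ hK _).2 fun c hc ψ => by
      rw [Lf_congr ψ α c (y := x) fun k => by
        rw [hK, Int.toNat_of_nonneg (Int.emod_nonneg _ hQ0)]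
        exact Int.mod_modEq _ _]
      exact congrFun ((RingHom.mem_ker).1 (hx c hc)) ψ)
  obtain ⟨k0, hk0⟩ : l ∣ j + ρ := by
    have : l ∣ l + (j + ρ) := by
      rw [show l + (j + ρ) = B.factorial by omega]
      exact Nat.dvd_factorial hl hlB
    exact (Nat.dvd_add_right dvd_rfl).1 this
  refine ⟨ρ, fun k => (p ^ ρ : ℕ) * u k + z k - v k * rep (p ^ l) k0, fun c hc => ?_⟩
  have hJ : IsJacobsonRing A := isJacobsonRing_of_finiteType (A := ZMod p)
  rw [← Ideal.mem_bot, ← isJacobsonRing_iff_prime_eq.1 hJ ⊥ Ideal.isPrime_bot]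
  refine Ideal.mem_sInf.2 fun {J} hJ => ?_
  have := hJ.2
  letI := Ideal.Quotient.field J
  have : Module.Finite (ZMod p) (A ⧸ J) := finite_of_finite_type_of_isJacobsonRing _ _
  have : Finite (A ⧸ J) := Module.finite_of_finite (ZMod p)
  letI := Fintype.ofFinite (A ⧸ J)
  obtain ⟨d, hd⟩ : ∃ d, Module.finrank (ZMod p) (A ⧸ J) = d := ⟨_, rfl⟩
  have hd0 : 0 < d := hd ▸ Module.finrank_pos
  have hc' : Fintype.card (A ⧸ J) = p ^ d := by rw [← hd, FiniteField.pow_finrank_eq_card]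
  have hd1 : 1 < p ^ d := hc' ▸ Fintype.one_lt_card
  obtain ⟨m, hm⟩ : ∃ m, k0 + m = d * ((p ^ d - 1) * (k0 + 1)) := by
    refine Nat.exists_eq_add_of_le ?_ |>.imp fun m h => h.symm
    have h1 : k0 + 1 ≤ (p ^ d - 1) * (k0 + 1) := Nat.le_mul_of_pos_left _ (by omega)
    have h2 := Nat.le_mul_of_pos_left ((p ^ d - 1) * (k0 + 1)) hd0
    omega
  have hN' : j + l * m + ρ = d * (l * ((p ^ d - 1) * (k0 + 1))) := by
    rw [mul_left_comm, ← hm, mul_add, ← hk0]
    ring
  have hN0 : j + l * m + ρ ≠ 0 := by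
    rw [hN']
    exact (Nat.mul_pos hd0 (Nat.mul_pos hl (Nat.mul_pos (by omega) (Nat.succ_pos _)))).ne'
  letI := Fintype.ofFinite (GaloisField p (j + l * m + ρ))
  obtain ⟨η⟩ := FiniteField.nonempty_algHom_of_finrank_dvd (F := ZMod p) (K := A ⧸ J)
    (L := GaloisField p (j + l * m + ρ)) (by
      rw [hd, GaloisField.finrank p hN0, hN']
      exact dvd_mul_right _ _)
  have h1 := (van_iff φ hφ Γ hΓ α W _ (hG _ hN0) _).1 (hV m _ (hG _ hN0)) c hc
    (η.toRingHom.comp (Ideal.Quotient.mk J))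
  rw [RingHom.comp_apply, map_eq_zero_iff _ η.toRingHom.injective] at h1
  have h2 := congrArg (· ^ p ^ ρ) h1
  simp only [← map_pow, Lf_pow, zero_pow (pow_pos hp.pos ρ).ne'] at h2
  rw [← Ideal.Quotient.eq_zero_iff_mem, ← h2]
  refine Lf_congr _ α _ fun k => ?_
  rw [hc', ← ZMod.intCast_eq_intCast_iff]
  have e1 : ((p ^ d : ℕ) : ZMod (p ^ d - 1)) = 1 := by
    rw [show p ^ d = p ^ d - 1 + 1 by omega, Nat.cast_add, Nat.add_sub_cancel, ZMod.natCast_self]
    simp
  have e2 : (((p ^ l) ^ d : ℕ) : ZMod (p ^ d - 1)) = 1 := by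
    rw [← pow_mul, mul_comm, pow_mul, Nat.cast_pow, e1, one_pow]
  have e3 := rep_mul e2 ((p ^ d - 1) * (k0 + 1))
  rw [← hm, rep_add, ← pow_mul, ← hk0, Nat.cast_mul (p ^ d - 1), ZMod.natCast_self] at e3
  have e4 : ((p ^ (j + l * m + ρ) : ℕ) : ZMod (p ^ d - 1)) = 1 := by
    rw [hN', pow_mul, Nat.cast_pow, Nat.cast_pow, ← Nat.cast_pow, e1, one_pow]
  push_cast at e3 e4 ⊢
  linear_combination (-(v k : ZMod (p ^ d - 1))) * e3 - (z k : ZMod (p ^ d - 1)) * e4

end SkP
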