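import Pool.Agent.Lib.MP_b7b898_nt.SK.Lam

/-! SK: the local-global principle for subvarieties of tori. -/

namespace SkP
open MvPolynomial Finset

theorem torus {A : Type} [CommRing A] [IsDomain A] [Algebra.FiniteType ℤ A] {p : ℕ}
    (hp : p.Prime) (hA : CharP A p) {n : ℕ} {Γ : Subgroup (Fin n → Aˣ)} (hΓ : Γ.FG)
    (V : Set (MvPolynomial (Fin n) A)) {N : ℕ} (hN : 0 < N) :
    ∃ J : Ideal A, Finite (A ⧸ J) ∧ ∀ γ ∈ Γ, (∀ f ∈ V, eval (fun i => (γ i : A)) f ∈ J) →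
      ∃ η ∈ Γ, ∀ f ∈ V, eval (fun i => ((γ * η ^ N) i : A)) f = 0 := by
  classical
  have : Fact p.Prime := ⟨hp⟩
  let _ := ZMod.algebra A p
  have : Algebra.FiniteType (ZMod p) A := Algebra.FiniteType.of_restrictScalars_finiteType ℤ _ _
  have : IsNoetherianRing A := Algebra.FiniteType.isNoetherianRing (ZMod p) A
  obtain ⟨S, rfl, hS⟩ := (Subgroup.fg_iff Γ).1 hΓ
  let _ := hS.fintype
  obtain ⟨V₀, hV₀, hsp⟩ := (Submodule.fg_span_iff_fg_span_finset_subset
    (R := MvPolynomial (Fin n) A) V).1 (IsNoetherian.noetherian _)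
  let T := V₀.biUnion support
  have key : ∀ f ∈ V₀, ∀ x : S → ℤ, Lf (fun (m : T) (k : S) => ∏ a, k.1 a ^ m.1 a)
      (fun m => coeff m.1 f) x = eval (fun i => ((∏ k : S, k.1 ^ x k) i : A)) f := by
    intro f hf x
    have e : ∀ m : T, (ch (fun (m : T) (k : S) => ∏ a, k.1 a ^ m.1 a) x m : A) =
        ∏ a, ((∏ k : S, k.1 ^ x k) a : A) ^ m.1 a := fun m => by
      simp only [ch, ← Units.val_pow_eq_pow_val, ← Units.coe_prod, Finset.prod_apply, Pi.pow_apply,
        ← prod_pow, ← prod_zpow]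
      rw [prod_comm]
      simp only [← zpow_natCast, ← zpow_mul, mul_comm]
    simp only [Lf, e]
    rw [eval_eq', sum_coe_sort T fun m => coeff m f * ∏ a, ((∏ k : S, k.1 ^ x k) a : A) ^ m a]
    refine (sum_subset (subset_biUnion_of_mem support hf) fun m _ hm => ?_).symm
    rw [notMem_support_iff.1 hm, zero_mul]
  obtain ⟨J, hJ, h⟩ := skolem_mod (p := p) (fun (m : T) (k : S) => ∏ a, k.1 a ^ m.1 a)
    (V₀.finite_toSet.image fun f (m : T) => coeff m.1 f) hN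
  refine ⟨J, hJ, fun γ hγ hV => ?_⟩
  obtain ⟨x, rfl⟩ := Subgroup.mem_closure_iff_of_fintype.1 hγ
  obtain ⟨w, hw, hxw⟩ := h x (by
    rintro _ ⟨f, hf, rfl⟩
    rw [key f hf]
    exact hV f (hV₀ hf))
  choose y hy using hxw
  refine ⟨∏ k : S, k.1 ^ (-y k), Subgroup.mem_closure_iff_of_fintype.2 ⟨_, rfl⟩, fun f hf => ?_⟩
  have e : (∏ k : S, k.1 ^ x k) * (∏ k : S, k.1 ^ (-y k)) ^ N = ∏ k : S, k.1 ^ w k := by
    rw [← prod_pow, ← prod_mul_distrib]
    refine prod_congr rfl fun k _ => ?_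
    rw [← zpow_natCast, ← zpow_mul, ← zpow_add]
    congr 1
    linear_combination hy k
  rw [e]
  have hle : Submodule.span (MvPolynomial (Fin n) A) V ≤
      RingHom.ker (eval fun i => ((∏ k : S, k.1 ^ w k) i : A)) := by
    rw [hsp]
    exact Submodule.span_le.2 fun g hg => (key g hg w).symm.trans (hw _ ⟨g, hg, rfl⟩)
  exact hle (Submodule.subset_span hf)

end SkP
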